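import Pool.Agent.H54.Radon.Gale

namespace Pool.Agent.H54.Radon

open Finset

section

variable {m d : ℕ} {x : Fin m → Fin d → ℝ} {g t : Fin m → ℝ}

/-- size of the cut set -/
noncomputable def pc (g : Fin m → ℝ) (j : ℕ) : ℕ := (cut g j).card

lemma pc_end : pc g m + pc g 0 = m := by
  unfold pc
  rw [← cut_compl_zero, add_comm, Finset.card_add_card_compl, Fintype.card_fin]

lemma pc_succ_neg {j : Fin m} (h : g j < 0) : pc g (j + 1) = pc g j + 1 := by
  unfold pc
  have hj : j ∉ cut g j := by rw [mem_cut]; simp [h]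
  have : cut g (j + 1) = insert j (cut g j) := by
    ext i
    rw [Finset.mem_insert]
    by_cases hij : i = j
    · subst hij
      rw [mem_cut]
      simp [h]
    · rw [cut_succ_eq hij]; simp [hij]
  rw [this, Finset.card_insert_of_notMem hj]

lemma pc_succ_pos {j : Fin m} (h : ¬ g j < 0) : pc g j = pc g (j + 1) + 1 := by
  unfold pc
  have hj : j ∉ cut g (j + 1) := by rw [mem_cut]; simp [h]
  have : cut g j = insert j (cut g (j + 1)) := by
    ext i
    rw [Finset.mem_insert]
    by_cases hij : i = j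
    · subst hij
      rw [mem_cut]
      simp [h]
    · rw [cut_succ_eq hij]; simp [hij]
  rw [this, Finset.card_insert_of_notMem hj]

lemma pc_step (j : ℕ) (hj : j < m) : pc g (j + 1) = pc g j + 1 ∨ pc g j = pc g (j + 1) + 1 := by
  by_cases h : g ⟨j, hj⟩ < 0
  · exact Or.inl (pc_succ_neg (j := ⟨j, hj⟩) h)
  · exact Or.inr (pc_succ_pos (j := ⟨j, hj⟩) h)

lemma cut_inj {i j : ℕ} (hi : i < m) (hj : j < m) (h : cut g i = cut g j) : i = j := by
  by_contra hne
  wlog hlt : i < j generalizing i j
  · exact this hj hi h.symm (fun h => hne h.symm) (by omega)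
  have h1 : (⟨i, hi⟩ : Fin m) ∈ cut g i ↔ (⟨i, hi⟩ : Fin m) ∈ cut g j := by rw [h]
  rw [mem_cut, mem_cut] at h1
  simp only [lt_irrefl, hlt, false_iff, true_iff] at h1
  tauto

lemma cut_ne_compl {i j : ℕ} (hi : i < m) (hj : j < m) : cut g i ≠ (cut g j)ᶜ := by
  intro h
  have hm : m - 1 < m := by omega
  have h1 : (⟨m - 1, hm⟩ : Fin m) ∈ cut g i ↔ ¬ (⟨m - 1, hm⟩ : Fin m) ∈ cut g j := by
    rw [h, Finset.mem_compl]
  rw [mem_cut, mem_cut] at h1
  have e1 : ¬ (m - 1 < i) := by omega
  have e2 : ¬ (m - 1 < j) := by omega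
  simp only [e1, e2, false_iff, not_not] at h1
  tauto

lemma pc_pos (G : GaleForm x g t) (hm : 4 ≤ m) (j : ℕ) (hj : j ≤ m) :
    1 ≤ pc g j ∧ pc g j + 1 ≤ m := by
  have hx := G.injective hm
  have main : ∀ j < m, 1 ≤ pc g j ∧ pc g j + 1 ≤ m := by
    intro j hj
    have := (radon_iff G hm hx (cut g j)).2 ⟨j, hj, Or.inl rfl⟩
    have h1 := Finset.card_pos.2 this.1
    have h2 := Finset.card_pos.2 this.2.1
    rw [Finset.card_compl, Fintype.card_fin] at h2
    unfold pc
    omega
  rcases Nat.lt_or_ge j m with h | h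
  · exact main j h
  · have : j = m := by omega
    subst this
    have h0 := main 0 (by omega)
    have := pc_end (g := g)
    omega

theorem radonCount_eq (G : GaleForm x g t) (hm : 4 ≤ m) (hx : Function.Injective x)
    (s : ℕ) : radonCount (univ.map ⟨x, hx⟩) s = vis m (pc g) s := by
  classical
  set f : Fin m ↪ (Fin d → ℝ) := ⟨x, hx⟩ with hf
  have hset : {P : Sym2 (Finset (Fin d → ℝ)) | ∃ A B, P = s(A, B) ∧
      IsRadon (univ.map f) A B ∧ A.card = s} =
      (fun j : ℕ => s((cut g j).map f, ((cut g j)ᶜ).map f)) ''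
        {j : ℕ | j < m ∧ (pc g j = s ∨ pc g j + s = m)} := by
    ext P
    constructor
    · rintro ⟨A, B, rfl, ⟨hA, hB, hdisj, hunion, hne⟩, hcard⟩
      have hAsub : A ⊆ univ.map f := by
        intro z hz
        have : z ∈ ((univ.map f : Finset _) : Set (Fin d → ℝ)) := by
          rw [← hunion]; exact Or.inl hz
        exact this
      obtain ⟨A', -, rfl⟩ := (Finset.subset_map_iff).1 hAsub
      have hBeq : B = (A'ᶜ).map f := by
        ext z
        have hz : z ∈ ((univ.map f : Finset _) : Set (Fin d → ℝ)) ↔ z ∈ ((A'.map f : Finset _) : Set (Fin d → ℝ)) ∪ B := by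
          rw [hunion]
        rw [Set.mem_union, Finset.mem_coe, Finset.mem_coe, Finset.mem_coe] at hz
        constructor
        · intro hzB
          have h1 := hz.2 (Or.inr hzB)
          rw [Finset.mem_map] at h1
          obtain ⟨i, -, rfl⟩ := h1
          rw [Finset.mem_map' f, Finset.mem_compl]
          intro hi
          exact Finset.disjoint_left.1 hdisj (by rw [Finset.mem_map' f]; exact hi) hzB
        · intro hz2
          rw [Finset.mem_map] at hz2
          obtain ⟨i, hi, rfl⟩ := hz2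
          rcases hz.1 (by simp) with h | h
          · rw [Finset.mem_map' f] at h
            exact absurd h (Finset.mem_compl.1 hi)
          · exact h
      subst hBeq
      have hr := (radon_iff G hm hx A').1 ⟨by simpa using hA, by simpa using hB, hne⟩
      rw [Finset.card_map] at hcard
      obtain ⟨j, hj, hj' | hj'⟩ := hr
      · refine ⟨j, ⟨hj, Or.inl ?_⟩, ?_⟩
        · rw [pc, ← hj', hcard]
        · simp only [← hj']
      · refine ⟨j, ⟨hj, Or.inr ?_⟩, ?_⟩
        · rw [pc, ← hj', ← hcard, add_comm, Finset.card_add_card_compl, Fintype.card_fin]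
        · simp only [← hj', compl_compl]
          exact Sym2.eq_swap
    · rintro ⟨j, ⟨hj, hjs⟩, rfl⟩
      have hr := (radon_iff G hm hx (cut g j)).2 ⟨j, hj, Or.inl rfl⟩
      have hR : IsRadon (univ.map f) ((cut g j).map f) (((cut g j)ᶜ).map f) := by
        refine ⟨by simpa using hr.1, by simpa using hr.2.1, ?_, ?_, hr.2.2⟩
        · rw [Finset.disjoint_map]; exact disjoint_compl_right
        · rw [← Finset.coe_union, ← Finset.map_union, Finset.union_compl]
      rcases hjs with h | h
      · exact ⟨_, _, rfl, hR, by rw [Finset.card_map]; exact h⟩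
      · refine ⟨_, _, Sym2.eq_swap, ⟨hR.2.1, hR.1, hR.2.2.1.symm, ?_, ?_⟩, ?_⟩
        · rw [Set.union_comm]; exact hR.2.2.2.1
        · rw [Set.inter_comm]; exact hR.2.2.2.2
        · rw [Finset.card_map, Finset.card_compl, Fintype.card_fin]
          unfold pc at h
          omega
  rw [radonCount, hset, Set.InjOn.ncard_image]
  · rw [vis]
    have : {j : ℕ | j < m ∧ (pc g j = s ∨ pc g j + s = m)} =
      (({j ∈ range m | pc g j = s ∨ pc g j + s = m} : Finset ℕ) : Set ℕ) := by
      ext j; simp
    rw [this, Set.ncard_coe_finset]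
  · rintro i ⟨hi, -⟩ j ⟨hj, -⟩ hij
    simp only [Sym2.eq, Sym2.rel_iff'] at hij
    rcases hij with h | h
    · have h1 := (Prod.mk.inj h).1
      exact cut_inj hi hj (Finset.map_injective f h1)
    · have h1 := (Prod.mk.inj h).1
      exact absurd (Finset.map_injective f h1) (cut_ne_compl hi hj)

theorem genPos_of_gale (G : GaleForm x g t) (hm : m = d + 3)
    (hx : Function.Injective x) : GenPos (univ.map ⟨x, hx⟩) := by
  classical
  set f : Fin m ↪ (Fin d → ℝ) := ⟨x, hx⟩ with hf
  intro T hT hTc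
  obtain ⟨B, -, rfl⟩ := (Finset.subset_map_iff).1 hT
  rw [Finset.card_map] at hTc
  rw [affineIndependent_iff]
  intro s w hw1 hw2 e he
  let l : Fin m → ℝ := fun i => if h : x i ∈ B.map f then (if (⟨x i, h⟩ : (B.map f : Finset _)) ∈ s then w ⟨x i, h⟩ else 0) else 0
  have hl0 : ∀ i ∉ B, l i = 0 := by
    intro i hi
    have : ¬ x i ∈ B.map f := by
      rw [show x i = f i from rfl, Finset.mem_map' f]; exact hi
    simp only [l, this, dif_neg, not_false_eq_true]
  have hsum : ∀ (F : (Fin d → ℝ) → ℝ → (Fin d → ℝ) × ℝ) , (∀ z, F z 0 = 0) →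
      ∑ i, F (x i) (l i) = ∑ e ∈ s, F e (w e) := by
    intro F hF
    have h1 : ∑ i, F (x i) (l i) = ∑ i ∈ B, F (x i) (l i) := by
      symm
      apply Finset.sum_subset (Finset.subset_univ _)
      intro i _ hi
      rw [hl0 i hi, hF]
    have h2 : ∑ e ∈ s, F e (w e) = ∑ e : (B.map f : Finset _), (if e ∈ s then F e (w e) else 0) := by
      rw [← Finset.sum_filter]
      congr 1
      ext e; simp
    rw [h1, h2]
    have h3 : ∑ e : (B.map f : Finset _), (if e ∈ s then F e (w e) else 0) =
        ∑ z ∈ (B.map f), (if h : z ∈ B.map f then (if (⟨z, h⟩ : (B.map f : Finset _)) ∈ s then F z (w ⟨z, h⟩) else 0) else 0) := by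
      rw [← Finset.sum_coe_sort (B.map f)]
      apply Finset.sum_congr rfl
      intro e _
      simp [e.2]
    rw [h3, Finset.sum_map]
    apply Finset.sum_congr rfl
    intro i hi
    have hmem : x i ∈ B.map f := by
      rw [show x i = f i from rfl, Finset.mem_map' f]; exact hi
    have hmem' : f i ∈ B.map f := hmem
    simp only [l, hmem, hmem', dif_pos]
    have : f i = x i := rfl
    simp only [this]
    split_ifs with c
    · rfl
    · exact hF _
  have hdep : IsDep x l := by
    have h1 := hsum (fun z r => (r • z, r)) (by intro z; simp)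
    have h2 : ∑ e ∈ s, ((w e • (e : Fin d → ℝ), w e) : (Fin d → ℝ) × ℝ) = 0 := by
      rw [Prod.ext_iff]
      refine ⟨?_, ?_⟩
      · rw [Prod.fst_sum]; exact hw2
      · rw [Prod.snd_sum]; exact hw1
    rw [h2, Prod.ext_iff, Prod.fst_sum, Prod.snd_sum] at h1
    exact ⟨h1.2, h1.1⟩
  have hcard : 1 < (Bᶜ).card := by
    rw [Finset.card_compl, Fintype.card_fin]; omega
  obtain ⟨i, hi, j, hj, hij⟩ := Finset.one_lt_card.1 hcard
  have hz := G.eq_zero hdep hij (hl0 i (Finset.mem_compl.1 hi)) (hl0 j (Finset.mem_compl.1 hj))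
  obtain ⟨k, hk, hke⟩ := Finset.mem_map.1 e.2
  have := congrFun hz k
  have hmem : x k ∈ B.map f := by
    rw [show x k = f k from rfl, Finset.mem_map' f]; exact hk
  simp only [l, hmem, dif_pos, Pi.zero_apply] at this
  have he' : (⟨x k, hmem⟩ : (B.map f : Finset _)) = e := Subtype.ext hke
  rw [he', if_pos he] at this
  exact this

end

end Pool.Agent.H54.Radon
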