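import Mathlib

namespace Pool.Agent.H54.Radon

open Finset

/-- `{A, B}` is a Radon 2-partition of the finite point set `S`. -/
def IsRadon {d : ℕ} (S A B : Finset (Fin d → ℝ)) : Prop :=
  A.Nonempty ∧ B.Nonempty ∧ Disjoint A B ∧ (A : Set (Fin d → ℝ)) ∪ B = S ∧
    (convexHull ℝ (A : Set (Fin d → ℝ)) ∩ convexHull ℝ (B : Set (Fin d → ℝ))).Nonempty

/-- The number of unordered Radon 2-partitions of `S` with a part of size `s`. -/
noncomputable def radonCount {d : ℕ} (S : Finset (Fin d → ℝ)) (s : ℕ) : ℕ :=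
  Set.ncard {P : Sym2 (Finset (Fin d → ℝ)) | ∃ A B, P = s(A, B) ∧ IsRadon S A B ∧ A.card = s}

/-- General position: every subset with at most `d+1` points is affinely independent. -/
def GenPos {d : ℕ} (S : Finset (Fin d → ℝ)) : Prop :=
  ∀ T ⊆ S, T.card ≤ d + 1 → AffineIndependent ℝ (fun x : T => (x : Fin d → ℝ))

/-- The alternating sum `r s - r (s-1) + r (s-2) - ...`, down to `r 1`. -/
def alt (r : ℕ → ℕ) : ℕ → ℤ
  | 0 => 0
  | s + 1 => r (s + 1) - alt r s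

/-- The intrinsic condition on a vector `(r 1, ..., r (m/2))`: for some `a` in `[1, m/2]` the entries
below `a` vanish, the alternating sums at `a <= s < m/2` are at least `1`, the alternating sum at
`m/2` is `0` if `m` is even, and the entries sum to `m`. -/
def IsVec (m : ℕ) (r : ℕ → ℕ) : Prop :=
  ∃ a : ℕ, 1 ≤ a ∧ 2 * a ≤ m ∧ (∀ s, 1 ≤ s → s < a → r s = 0) ∧
    (∀ s, a ≤ s → 2 * s < m → 1 ≤ alt r s) ∧
    (∀ s, 2 * s = m → alt r s = 0) ∧ ∑ s ∈ Icc 1 (m / 2), r s = m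

/-- The sets `Z` that are supports of Radon vectors of `m`-point sets in dimension `d`: the empty set
if `m <= d+1`; every nonempty interval in `[1, m/2]` if `3 <= m <= d+2`; and the intervals
`[p, m/2]` with `1 <= p <= d/2+1` if `m >= d+3`. -/
def IsSupp (d m : ℕ) (Z : Finset ℕ) : Prop :=
  (m ≤ d + 1 ∧ Z = ∅) ∨
  (3 ≤ m ∧ m ≤ d + 2 ∧ ∃ p q, 1 ≤ p ∧ p ≤ q ∧ q ≤ m / 2 ∧ Z = Icc p q) ∨
  (d + 3 ≤ m ∧ ∃ p, 1 ≤ p ∧ p ≤ d / 2 + 1 ∧ Z = Icc p (m / 2))

end Pool.Agent.H54.Radon
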