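import Pool.Agent.H54.Radon.Count

namespace Pool.Agent.H54.Radon

open Finset

lemma IsDep.lin {m d : ℕ} {x : Fin m → Fin d → ℝ} {u w : Fin m → ℝ} (hu : IsDep x u)
    (hw : IsDep x w) (a b : ℝ) : IsDep x (fun i => a * u i + b * w i) := by
  constructor
  · rw [Finset.sum_add_distrib, ← Finset.mul_sum, ← Finset.mul_sum, hu.1, hw.1]; simp
  · simp only [add_smul, mul_smul]
    rw [Finset.sum_add_distrib, ← Finset.smul_sum, ← Finset.smul_sum, hu.2, hw.2]; simp

lemma exists_dep {d : ℕ} (x : Fin (d + 3) → Fin d → ℝ) (k : Fin (d + 3)) :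
    ∃ u, IsDep x u ∧ u k = 0 ∧ u ≠ 0 := by
  let L : (Fin (d + 3) → ℝ) →ₗ[ℝ] (ℝ × (ℝ × (Fin d → ℝ))) :=
    { toFun := fun l => (l k, (∑ i, l i, ∑ i, l i • x i))
      map_add' := by
        intro a b
        simp only [Pi.add_apply, add_smul, Finset.sum_add_distrib, Prod.mk_add_mk]
      map_smul' := by
        intro c a
        simp only [Pi.smul_apply, smul_eq_mul, mul_smul, RingHom.id_apply, Prod.smul_mk,
          Finset.mul_sum, Finset.smul_sum] }
  have hfin : Module.finrank ℝ (ℝ × (ℝ × (Fin d → ℝ))) < Module.finrank ℝ (Fin (d + 3) → ℝ) := by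
    simp only [Module.finrank_prod, Module.finrank_self, Module.finrank_fin_fun]
    omega
  have hker := L.ker_ne_bot_of_finrank_lt hfin
  obtain ⟨u, hu, hu0⟩ := (Submodule.ne_bot_iff _).1 hker
  rw [LinearMap.mem_ker] at hu
  have hu' : (u k, (∑ i, u i, ∑ i, u i • x i)) = ((0 : ℝ), ((0 : ℝ), (0 : Fin d → ℝ))) := hu
  rw [Prod.mk.injEq, Prod.mk.injEq] at hu'
  exact ⟨u, ⟨hu'.2.1, hu'.2.2⟩, hu'.1, hu0⟩

lemma eq_zero_of_genPos {d : ℕ} (x : Fin (d + 3) → Fin d → ℝ) (hx : Function.Injective x)
    (hG : GenPos (univ.map ⟨x, hx⟩)) {l : Fin (d + 3) → ℝ} (hl : IsDep x l) {i j : Fin (d + 3)}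
    (hij : i ≠ j) (hi : l i = 0) (hj : l j = 0) : l = 0 := by
  classical
  set f : Fin (d + 3) ↪ (Fin d → ℝ) := ⟨x, hx⟩ with hf
  set B : Finset (Fin (d + 3)) := ({i, j} : Finset _)ᶜ with hB
  have hBc : B.card ≤ d + 1 := by
    rw [hB, Finset.card_compl, Fintype.card_fin, Finset.card_pair hij]; omega
  have hA := hG (B.map f) (Finset.map_subset_map.2 (Finset.subset_univ _)) (by rwa [Finset.card_map])
  have hA' : AffineIndependent ℝ (fun b : B => x b) := by
    have e : (fun b : B => x b) = (fun z : (B.map f : Finset _) => (z : Fin d → ℝ)) ∘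
        (fun b : B => ⟨f b, Finset.mem_map_of_mem f b.2⟩) := by
      funext b; rfl
    rw [e]
    have hinj : Function.Injective (fun b : B => (⟨f b, Finset.mem_map_of_mem f b.2⟩ : (B.map f : Finset _))) := by
      intro b b' h
      exact Subtype.ext (f.injective (Subtype.ext_iff.1 h))
    exact hA.comp_embedding ⟨_, hinj⟩
  rw [affineIndependent_iff] at hA'
  have hz : ∀ k, k ∉ B → l k = 0 := by
    intro k hk
    rw [hB, Finset.mem_compl, not_not, Finset.mem_insert, Finset.mem_singleton] at hk
    rcases hk with rfl | rfl <;> assumption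
  have h1 : ∑ b : B, l b = 0 := by
    rw [Finset.sum_coe_sort B l, Finset.sum_subset (Finset.subset_univ B) (fun k _ hk => hz k hk)]
    exact hl.1
  have h2 : ∑ b : B, l b • x b = 0 := by
    rw [Finset.sum_coe_sort B (fun k => l k • x k),
      Finset.sum_subset (Finset.subset_univ B) (fun k _ hk => by rw [hz k hk, zero_smul])]
    exact hl.2
  have := hA' Finset.univ (fun b => l b) h1 h2
  funext k
  by_cases hk : k ∈ B
  · exact this ⟨k, hk⟩ (Finset.mem_univ _)
  · exact hz k hk

/-- every set of `d+3` points in general position has an enumeration in Gale form -/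
theorem exists_gale {d : ℕ} (x : Fin (d + 3) → Fin d → ℝ) (hx : Function.Injective x)
    (hG : GenPos (univ.map ⟨x, hx⟩)) :
    ∃ (e : Equiv.Perm (Fin (d + 3))) (g t : Fin (d + 3) → ℝ), GaleForm (x ∘ e) g t := by
  obtain ⟨u, hu, hu0, hune⟩ := exists_dep x 0
  obtain ⟨w, hw, hw1, hwne⟩ := exists_dep x 1
  have h01 : (0 : Fin (d + 3)) ≠ 1 := by
    intro h
    have := congrArg Fin.val h
    simp at this
  have hu1 : u 1 ≠ 0 := fun h => hune (eq_zero_of_genPos x hx hG hu h01 hu0 h)
  have hw0 : w 0 ≠ 0 := fun h => hwne (eq_zero_of_genPos x hx hG hw h01 h hw1)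
  have hspan : ∀ l, IsDep x l ↔ ∃ a b : ℝ, ∀ i, l i = a * u i + b * w i := by
    intro l
    constructor
    · intro hl
      refine ⟨l 1 / u 1, l 0 / w 0, ?_⟩
      have hd : IsDep x (fun i => 1 * l i + (-1) * (l 1 / u 1 * u i + l 0 / w 0 * w i)) :=
        hl.lin (hu.lin hw _ _) 1 (-1)
      have := eq_zero_of_genPos x hx hG hd h01 (by simp only [hu0]; field_simp; ring)
        (by simp only [hw1]; field_simp; ring)
      intro i
      have := congrFun this i
      simp only [Pi.zero_apply] at this
      linarith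
    · rintro ⟨a, b, hab⟩
      have : l = fun i => a * u i + b * w i := funext hab
      rw [this]
      exact hu.lin hw a b
  have huw : ∀ i, w i = 0 → u i ≠ 0 := by
    intro i hwi hui
    by_cases h : i = 0
    · subst h; exact hw0 hwi
    · exact hune (eq_zero_of_genPos x hx hG hu h hui hu0)
  obtain ⟨c, hc⟩ := Infinite.exists_notMem_finset (univ.image (fun i => - u i / w i))
  have hg : ∀ i, u i + c * w i ≠ 0 := by
    intro i h
    by_cases hwi : w i = 0
    · rw [hwi] at h; exact huw i hwi (by linarith)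
    · apply hc
      rw [Finset.mem_image]
      refine ⟨i, Finset.mem_univ _, ?_⟩
      field_simp
      linarith
  set g : Fin (d + 3) → ℝ := fun i => u i + c * w i with hgdef
  set t : Fin (d + 3) → ℝ := fun i => w i / g i with htdef
  have htinj : Function.Injective t := by
    intro i j hij
    by_contra hne
    have hd : IsDep x (fun k => (-t i) * u k + (1 - t i * c) * w k) := hu.lin hw _ _
    have e : ∀ k, (-t i) * u k + (1 - t i * c) * w k = w k - t i * g k := by
      intro k; simp only [hgdef]; ring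
    have hi : (-t i) * u i + (1 - t i * c) * w i = 0 := by
      rw [e]; simp only [htdef]; rw [div_mul_cancel₀ _ (hg i)]; ring
    have hj : (-t i) * u j + (1 - t i * c) * w j = 0 := by
      rw [e, hij]; simp only [htdef]; rw [div_mul_cancel₀ _ (hg j)]; ring
    have hz := eq_zero_of_genPos x hx hG hd hne hi hj
    have h1 := congrFun hz 1
    have h0 := congrFun hz 0
    simp only [hw1, hu0, Pi.zero_apply, mul_zero, add_zero, zero_add] at h1 h0
    have ht : t i = 0 := by
      rcases mul_eq_zero.1 h1 with h | h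
      · linarith
      · exact absurd h hu1
    rw [ht] at h0
    apply hw0
    linarith
  let e : Equiv.Perm (Fin (d + 3)) := Tuple.sort t
  refine ⟨e, g ∘ e, t ∘ e, ⟨fun i => hg _, ?_, ?_⟩⟩
  · exact (Tuple.monotone_sort t).strictMono_of_injective (htinj.comp e.injective)
  · intro l
    have hl : IsDep (x ∘ e) l ↔ IsDep x (l ∘ e.symm) := by
      unfold IsDep
      have e1 : ∑ i, (l ∘ e.symm) i = ∑ i, l i := Equiv.sum_comp e.symm l
      have e2 : ∑ i, (l ∘ e.symm) i • x i = ∑ i, l i • (x ∘ e) i := by
        rw [← Equiv.sum_comp e]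
        simp
      rw [e1, e2]
    rw [hl, hspan]
    constructor
    · rintro ⟨a, b, hab⟩
      refine ⟨a, b - a * c, fun i => ?_⟩
      have := hab (e i)
      simp only [Function.comp, Equiv.symm_apply_apply] at this
      rw [this]
      simp only [Function.comp, htdef]
      have h3 : g (e i) ≠ 0 := hg (e i)
      have h4 : g (e i) * (a + (b - a * c) * (w (e i) / g (e i))) =
        g (e i) * a + (b - a * c) * w (e i) := by field_simp
      rw [h4]
      simp only [hgdef]
      ring
    · rintro ⟨a, b, hab⟩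
      refine ⟨a, a * c + b, fun i => ?_⟩
      have := hab (e.symm i)
      simp only [Function.comp, Equiv.apply_symm_apply] at this ⊢
      rw [this]
      simp only [htdef]
      have h3 : g i ≠ 0 := hg i
      have h4 : g i * (a + b * (w i / g i)) = g i * a + b * w i := by field_simp
      rw [h4]
      simp only [hgdef]
      ring

/-! ### explicit configurations -/

/-- nodes -/
noncomputable def tt {m : ℕ} (i : Fin m) : ℝ := (i : ℕ) + 1

lemma tt_mono {m : ℕ} : StrictMono (tt (m := m)) := by
  intro i j h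
  have : (i : ℕ) < j := h
  have : ((i : ℕ) : ℝ) < (j : ℕ) := by exact_mod_cast this
  simp only [tt]; linarith

/-- Lagrange denominators -/
noncomputable def pp {m : ℕ} (i : Fin m) : ℝ := ∏ k ∈ univ.erase i, (tt i - tt k)

lemma pp_ne {m : ℕ} (i : Fin m) : pp i ≠ 0 := by
  unfold pp
  rw [Finset.prod_ne_zero_iff]
  intro k hk
  rw [sub_ne_zero]
  exact fun h => (Finset.mem_erase.1 hk).1 (tt_mono.injective h).symm

lemma pp_mul_neg {m : ℕ} (i : ℕ) (hi : i + 1 < m) :
    pp (⟨i, by omega⟩ : Fin m) * pp (⟨i + 1, hi⟩ : Fin m) < 0 := by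
  classical
  set a : Fin m := ⟨i, by omega⟩ with ha
  set b : Fin m := ⟨i + 1, hi⟩ with hb
  have hab : a ≠ b := by
    intro h; have := congrArg Fin.val h; simp [ha, hb] at this
  have e1 : pp a = (tt a - tt b) * ∏ k ∈ (univ.erase a).erase b, (tt a - tt k) := by
    unfold pp
    rw [Finset.mul_prod_erase _ (fun k => tt a - tt k) (Finset.mem_erase.2 ⟨hab.symm, Finset.mem_univ _⟩)]
  have e2 : pp b = (tt b - tt a) * ∏ k ∈ (univ.erase a).erase b, (tt b - tt k) := by
    unfold pp
    rw [Finset.erase_right_comm,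
      Finset.mul_prod_erase _ (fun k => tt b - tt k) (Finset.mem_erase.2 ⟨hab, Finset.mem_univ _⟩)]
  have e3 : 0 < ∏ k ∈ (univ.erase a).erase b, ((tt a - tt k) * (tt b - tt k)) := by
    apply Finset.prod_pos
    intro k hk
    have hkb : k ≠ b := (Finset.mem_erase.1 hk).1
    have hka : k ≠ a := (Finset.mem_erase.1 (Finset.mem_erase.1 hk).2).1
    have hk1 : (k : ℕ) ≠ i := fun h => hka (Fin.ext h)
    have hk2 : (k : ℕ) ≠ i + 1 := fun h => hkb (Fin.ext h)
    simp only [tt, ha, hb]
    rcases Nat.lt_or_ge (k : ℕ) i with h | h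
    · have : ((k : ℕ) : ℝ) < i := by exact_mod_cast h
      apply mul_pos
      · linarith
      · push_cast; linarith
    · have h' : i + 2 ≤ (k : ℕ) := by omega
      have : ((i : ℕ) : ℝ) + 2 ≤ (k : ℕ) := by exact_mod_cast h'
      apply mul_pos_of_neg_of_neg
      · linarith
      · push_cast; linarith
  rw [Finset.prod_mul_distrib] at e3
  have e4 : tt b - tt a = 1 := by simp only [tt, ha, hb]; push_cast; ring
  have e5 : tt a - tt b = -1 := by linarith
  rw [e1, e2, e4, e5]
  nlinarith

/-- moment space -/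
lemma moments {d : ℕ} (mu : Fin (d + 3) → ℝ) :
    (∀ q : Polynomial ℝ, q.natDegree ≤ d → ∑ i, mu i * q.eval (tt i) = 0) ↔
      ∃ a b : ℝ, ∀ i, mu i = (a + b * tt i) / pp i := by
  classical
  have hinj : Set.InjOn (tt (m := d + 3)) (univ : Finset (Fin (d + 3))) :=
    fun i _ j _ h => tt_mono.injective h
  have hback : ∀ a b : ℝ, ∀ q : Polynomial ℝ, q.natDegree ≤ d →
      ∑ i : Fin (d + 3), (a + b * tt i) / pp i * q.eval (tt i) = 0 := by
    intro a b q hq
    set P : Polynomial ℝ := (Polynomial.C a + Polynomial.C b * Polynomial.X) * q with hP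
    have hdeg1 : (Polynomial.C a + Polynomial.C b * Polynomial.X : Polynomial ℝ).natDegree ≤ 1 := by
      rw [add_comm]; exact Polynomial.natDegree_linear_le
    have hdeg : P.natDegree ≤ d + 1 := by
      refine Polynomial.natDegree_mul_le.trans ?_
      omega
    have hc := Lagrange.coeff_eq_sum (s := (univ : Finset (Fin (d + 3)))) hinj (P := P) (by
      rw [Finset.card_univ, Fintype.card_fin]
      exact lt_of_le_of_lt Polynomial.degree_le_natDegree (by exact_mod_cast (by omega)))
    rw [Finset.card_univ, Fintype.card_fin, Polynomial.coeff_eq_zero_of_natDegree_lt (by omega)] at hc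
    rw [hc]
    apply Finset.sum_congr rfl
    intro i _
    simp only [hP, Polynomial.eval_mul, Polynomial.eval_add, Polynomial.eval_C, Polynomial.eval_X, pp]
    ring
  constructor
  · intro h
    have h01 : tt (0 : Fin (d + 3)) ≠ tt (1 : Fin (d + 3)) := by
      intro h
      have := congrArg Fin.val (tt_mono.injective h)
      simp at this
    have h01' : tt (1 : Fin (d + 3)) - tt (0 : Fin (d + 3)) ≠ 0 := sub_ne_zero.2 h01.symm
    -- choose a b
    set A := mu 0 * pp (0 : Fin (d + 3)) with hA
    set B := mu 1 * pp (1 : Fin (d + 3)) with hB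
    set b := (B - A) / (tt (1 : Fin (d + 3)) - tt (0 : Fin (d + 3))) with hb
    set a := A - b * tt (0 : Fin (d + 3)) with ha
    refine ⟨a, b, ?_⟩
    set nu : Fin (d + 3) → ℝ := fun i => mu i - (a + b * tt i) / pp i with hnu
    have hn0 : nu 0 = 0 := by
      have := pp_ne (0 : Fin (d + 3))
      simp only [hnu, ha]
      rw [hA]
      field_simp
      ring
    have hn1 : nu 1 = 0 := by
      have hp1 := pp_ne (1 : Fin (d + 3))
      have e : a + b * tt (1 : Fin (d + 3)) = B := by
        simp only [ha, hb]; field_simp; ring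
      simp only [hnu]
      rw [e, hB]
      field_simp
      ring
    have hmom : ∀ q : Polynomial ℝ, q.natDegree ≤ d → ∑ i, nu i * q.eval (tt i) = 0 := by
      intro q hq
      simp only [hnu, sub_mul, Finset.sum_sub_distrib]
      rw [h q hq, hback a b q hq, sub_zero]
    have hall : ∀ i, nu i = 0 := by
      intro i
      by_cases hi0 : i = 0
      · rw [hi0]; exact hn0
      by_cases hi1 : i = 1
      · rw [hi1]; exact hn1
      set T : Finset (Fin (d + 3)) := ((univ.erase 0).erase 1).erase i with hT
      have h10 : (1 : Fin (d + 3)) ≠ 0 := by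
        intro h; have := congrArg Fin.val h; simp at this
      have hTc : T.card = d := by
        rw [hT, Finset.card_erase_of_mem, Finset.card_erase_of_mem, Finset.card_erase_of_mem,
          Finset.card_univ, Fintype.card_fin]
        · omega
        · exact Finset.mem_univ _
        · exact Finset.mem_erase.2 ⟨h10, Finset.mem_univ _⟩
        · exact Finset.mem_erase.2 ⟨hi1, Finset.mem_erase.2 ⟨hi0, Finset.mem_univ _⟩⟩
      set q : Polynomial ℝ := ∏ k ∈ T, (Polynomial.X - Polynomial.C (tt k)) with hq
      have hqd : q.natDegree ≤ d := by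
        rw [hq, Polynomial.natDegree_prod_of_monic _ _ (fun k _ => Polynomial.monic_X_sub_C _)]
        simp [hTc]
      have := hmom q hqd
      rw [Finset.sum_eq_single i] at this
      · rcases mul_eq_zero.1 this with h | h
        · exact h
        · exfalso
          rw [hq, Polynomial.eval_prod, Finset.prod_eq_zero_iff] at h
          obtain ⟨k, hk, hk0⟩ := h
          simp only [Polynomial.eval_sub, Polynomial.eval_X, Polynomial.eval_C] at hk0
          have := tt_mono.injective (sub_eq_zero.1 hk0)
          rw [← this] at hk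
          exact (Finset.mem_erase.1 hk).1 rfl
      · intro j _ hji
        by_cases hj0 : j = 0
        · rw [hj0, hn0, zero_mul]
        by_cases hj1 : j = 1
        · rw [hj1, hn1, zero_mul]
        have hjT : j ∈ T := by
          rw [hT]
          exact Finset.mem_erase.2 ⟨hji, Finset.mem_erase.2 ⟨hj1, Finset.mem_erase.2 ⟨hj0, Finset.mem_univ _⟩⟩⟩
        have : q.eval (tt j) = 0 := by
          rw [hq, Polynomial.eval_prod]
          exact Finset.prod_eq_zero hjT (by simp)
        rw [this, mul_zero]
      · intro h; exact absurd (Finset.mem_univ _) h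
    intro i
    have := hall i
    simp only [hnu] at this
    linarith
  · rintro ⟨a, b, hab⟩ q hq
    have := hback a b q hq
    rw [← this]
    exact Finset.sum_congr rfl (fun i _ => by rw [hab i])

lemma expand_eval {d : ℕ} (c : Fin (d + 3) → ℝ)
    (hb : ∀ k < d, ∑ i, c i * tt i ^ (k + 1) = 0) (q : Polynomial ℝ) (hq : q.natDegree ≤ d) :
    ∑ i, c i * q.eval (tt i) = q.eval 0 * ∑ i, c i := by
  have e1 : ∀ z : ℝ, q.eval z = ∑ k ∈ range (d + 1), q.coeff k * z ^ k := by
    intro z
    exact Polynomial.eval_eq_sum_range' (by omega) z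
  simp only [e1]
  simp only [Finset.mul_sum]
  rw [Finset.sum_comm, Finset.sum_range_succ']
  have e2 : ∑ k ∈ range d, ∑ i, c i * (q.coeff (k + 1) * tt i ^ (k + 1)) = 0 := by
    apply Finset.sum_eq_zero
    intro k hk
    have := hb k (mem_range.1 hk)
    have e3 : ∑ i, c i * (q.coeff (k + 1) * tt i ^ (k + 1)) =
        q.coeff (k + 1) * ∑ i, c i * tt i ^ (k + 1) := by
      rw [Finset.mul_sum]
      apply Finset.sum_congr rfl
      intro i _
      ring
    rw [e3, this, mul_zero]
  rw [e2, zero_add]
  apply Finset.sum_congr rfl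
  intro i _
  rw [Finset.sum_range_succ']
  simp
  ring

/-- the explicit point configuration has Gale form `f(t_i)/pp i` -/
theorem gale_of_poly {d : ℕ} (f : Polynomial ℝ) (hf : f.natDegree ≤ d) (hf0 : f.eval 0 ≠ 0)
    (hft : ∀ i : Fin (d + 3), f.eval (tt i) ≠ 0) :
    GaleForm (fun (i : Fin (d + 3)) (k : Fin d) => tt i ^ ((k : ℕ) + 1) / f.eval (tt i))
      (fun i => f.eval (tt i) / pp i) tt := by
  refine ⟨fun i => div_ne_zero (hft i) (pp_ne i), tt_mono, fun l => ?_⟩
  have h1 : IsDep (fun (i : Fin (d + 3)) (k : Fin d) => tt i ^ ((k : ℕ) + 1) / f.eval (tt i)) l ↔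
      (∑ i, l i = 0 ∧ ∀ k < d, ∑ i, l i / f.eval (tt i) * tt i ^ (k + 1) = 0) := by
    unfold IsDep
    apply and_congr_right
    intro _
    rw [funext_iff]
    constructor
    · intro h k hk
      have := h ⟨k, hk⟩
      simp only [Finset.sum_apply, Pi.smul_apply, smul_eq_mul, Pi.zero_apply] at this
      rw [← this]
      exact Finset.sum_congr rfl (fun i _ => by ring)
    · intro h k
      have := h k k.2
      simp only [Finset.sum_apply, Pi.smul_apply, smul_eq_mul, Pi.zero_apply]
      rw [← this]
      exact Finset.sum_congr rfl (fun i _ => by ring)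
  have h2 : (∑ i, l i = 0 ∧ ∀ k < d, ∑ i, l i / f.eval (tt i) * tt i ^ (k + 1) = 0) ↔
      (∀ q : Polynomial ℝ, q.natDegree ≤ d → ∑ i, (l i / f.eval (tt i)) * q.eval (tt i) = 0) := by
    constructor
    · rintro ⟨ha, hb⟩
      have hexp := fun q hq => expand_eval (fun i => l i / f.eval (tt i)) hb q hq
      have hf1 := hexp f hf
      have hf2 : ∑ i, (l i / f.eval (tt i)) * f.eval (tt i) = 0 := by
        rw [← ha]
        apply Finset.sum_congr rfl
        intro i _
        rw [div_mul_cancel₀ _ (hft i)]
      rw [hf2] at hf1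
      have hf3 : ∑ i, l i / f.eval (tt i) = 0 := by
        rcases mul_eq_zero.1 hf1.symm with h | h
        · exact absurd h hf0
        · exact h
      intro q hq
      rw [hexp q hq, hf3, mul_zero]
    · intro h
      refine ⟨?_, ?_⟩
      · have := h f hf
        rw [← this]
        apply Finset.sum_congr rfl
        intro i _
        rw [div_mul_cancel₀ _ (hft i)]
      · intro k hk
        have := h (Polynomial.X ^ (k + 1)) (by rw [Polynomial.natDegree_X_pow]; omega)
        simpa using this
  rw [h1, h2, moments]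
  constructor
  · rintro ⟨a, b, hab⟩
    refine ⟨a, b, fun i => ?_⟩
    have := hab i
    have h3 := hft i
    have h4 := pp_ne i
    rw [div_eq_iff h3] at this
    rw [this]; ring
  · rintro ⟨a, b, hab⟩
    refine ⟨a, b, fun i => ?_⟩
    have h3 := hft i
    have h4 := pp_ne i
    rw [hab i]
    field_simp

end Pool.Agent.H54.Radon
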