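import Pool.Agent.H54.Radon.Exist

namespace Pool.Agent.H54.Radon

open Finset

section

variable {d : ℕ} {p : ℕ → ℕ}

/-- number of non-changes is at most `d` -/
lemma card_E (hstep : ∀ j < d + 3, p (j + 1) = p j + 1 ∨ p j = p (j + 1) + 1)
    (hpos : ∀ j ≤ d + 3, 1 ≤ p j ∧ p j + 1 ≤ d + 3) (hend : p (d + 3) + p 0 = d + 3) :
    #{i ∈ range (d + 2) | (p (i + 1) = p i + 1 ↔ p (i + 2) = p (i + 1) + 1)} ≤ d := by
  by_contra hcon
  -- at most one change
  have hsplit := Finset.card_filter_add_card_filter_not (s := range (d + 2))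
    (fun i => (p (i + 1) = p i + 1 ↔ p (i + 2) = p (i + 1) + 1))
  rw [card_range] at hsplit
  have hone : #{i ∈ range (d + 2) | ¬ (p (i + 1) = p i + 1 ↔ p (i + 2) = p (i + 1) + 1)} ≤ 1 := by
    omega
  rw [Finset.card_le_one] at hone
  have hstruct : ∃ e ≤ d + 3, ∀ i < d + 3, (p (i + 1) = p i + 1 ↔ (p 1 = p 0 + 1 ↔ i < e)) := by
    by_cases hC : ∃ c, c < d + 2 ∧ ¬ (p (c + 1) = p c + 1 ↔ p (c + 2) = p (c + 1) + 1)
    · obtain ⟨c, hc, hcc⟩ := hC
      refine ⟨c + 1, by omega, ?_⟩
      intro i hi
      induction i with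
      | zero => simp
      | succ i ih =>
        have ih' := ih (by omega)
        by_cases hic : i = c
        · subst hic
          have e1 : i < i + 1 := by omega
          have e2 : ¬ (i + 1 < i + 1) := by omega
          simp only [e1, e2] at ih' ⊢
          tauto
        · have h1 : (p (i + 1) = p i + 1 ↔ p (i + 2) = p (i + 1) + 1) := by
            by_contra hneg
            exact hic (hone i (by rw [mem_filter, mem_range]; exact ⟨by omega, hneg⟩) c
              (by rw [mem_filter, mem_range]; exact ⟨hc, hcc⟩))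
          have e1 : i < c + 1 ↔ i + 1 < c + 1 := by omega
          rw [e1] at ih'
          rw [← ih', h1]
    · push Not at hC
      refine ⟨d + 3, le_rfl, ?_⟩
      intro i hi
      induction i with
      | zero => simp
      | succ i ih =>
        have ih' := ih (by omega)
        have h1 : (p (i + 1) = p i + 1 ↔ p (i + 2) = p (i + 1) + 1) := hC i (by omega)
        have e1 : i < d + 3 := by omega
        simp only [e1, hi, iff_true] at ih' ⊢
        rw [← ih', h1]
  obtain ⟨e, he, hN⟩ := hstruct
  by_cases h0 : p 1 = p 0 + 1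
  · have h1 : ∀ j ≤ e, p j = p 0 + j := by
      intro j hj
      induction j with
      | zero => rfl
      | succ j ih =>
        have := ih (by omega)
        have h2 := (hN j (by omega)).2 ⟨fun _ => by omega, fun _ => h0⟩
        omega
    have h2 : ∀ k, e + k ≤ d + 3 → p (e + k) + k = p 0 + e := by
      intro k hk
      induction k with
      | zero => have := h1 e le_rfl; simp only [add_zero]; omega
      | succ k ih =>
        have h3 := ih (by omega)
        have h5 := hstep (e + k) (by omega)
        have h6 : ¬ (e + k < e) := by omega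
        have h4 : ¬ (p (e + k + 1) = p (e + k) + 1) := fun h =>
          h6 (((hN (e + k) (by omega)).1 h).1 h0)
        rw [show e + (k + 1) = e + k + 1 by ring]
        omega
    have h3 := h2 (d + 3 - e) (by omega)
    rw [show e + (d + 3 - e) = d + 3 by omega] at h3
    have h4 := h1 e le_rfl
    have h5 := hpos e he
    omega
  · have h1 : ∀ j ≤ e, p j + j = p 0 := by
      intro j hj
      induction j with
      | zero => rfl
      | succ j ih =>
        have h3 := ih (by omega)
        have h4 := hN j (by omega)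
        have h5 := hstep j (by omega)
        have h6 : j < e := by omega
        simp only [h6, h0, iff_true, iff_false] at h4
        omega
    have h2 : ∀ k, e + k ≤ d + 3 → p (e + k) + e = p 0 + k := by
      intro k hk
      induction k with
      | zero => have := h1 e le_rfl; simp only [add_zero]; omega
      | succ k ih =>
        have h3 := ih (by omega)
        have h6 : ¬ (e + k < e) := by omega
        have h4 := (hN (e + k) (by omega)).2 ⟨fun h => absurd h h0, fun h => absurd h h6⟩
        rw [show e + (k + 1) = e + k + 1 by ring]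
        omega
    have h3 := h2 (d + 3 - e) (by omega)
    rw [show e + (d + 3 - e) = d + 3 by omega] at h3
    have h4 := h1 e le_rfl
    have h5 := hpos e he
    omega

/-- target sign -/
noncomputable def tau (p : ℕ → ℕ) (i : ℕ) : ℝ := if p (i + 1) = p i + 1 then -1 else 1

lemma tau_mul_self (p : ℕ → ℕ) (i : ℕ) : tau p i * tau p i = 1 := by
  unfold tau; split_ifs <;> norm_num

lemma tau_mul (p : ℕ → ℕ) (i : ℕ) : tau p i * tau p (i + 1) =
    if (p (i + 1) = p i + 1 ↔ p (i + 2) = p (i + 1) + 1) then 1 else -1 := by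
  unfold tau
  rw [show i + 1 + 1 = i + 2 by ring]
  by_cases h1 : p (i + 1) = p i + 1 <;> by_cases h2 : p (i + 2) = p (i + 1) + 1 <;> simp [h1, h2]

/-- the denominators indexed by naturals -/
noncomputable def ppn (m : ℕ) (i : ℕ) : ℝ := if h : i < m then pp (⟨i, h⟩ : Fin m) else 1

lemma exists_poly (hstep : ∀ j < d + 3, p (j + 1) = p j + 1 ∨ p j = p (j + 1) + 1)
    (hpos : ∀ j ≤ d + 3, 1 ≤ p j ∧ p j + 1 ≤ d + 3) (hend : p (d + 3) + p 0 = d + 3) :
    ∃ f : Polynomial ℝ, f.natDegree ≤ d ∧ f.eval 0 ≠ 0 ∧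
      ∀ i : Fin (d + 3), 0 < f.eval (tt i) * pp i * tau p i := by
  classical
  set E : Finset ℕ := {i ∈ range (d + 2) | (p (i + 1) = p i + 1 ↔ p (i + 2) = p (i + 1) + 1)} with hE
  have hEc : E.card ≤ d := card_E hstep hpos hend
  set c0 : ℝ := tau p 0 * pp (0 : Fin (d + 3)) with hc0
  have hc0ne : c0 ≠ 0 := by
    apply mul_ne_zero _ (pp_ne _)
    unfold tau; split_ifs <;> norm_num
  set f : Polynomial ℝ := Polynomial.C c0 * ∏ i ∈ E, (Polynomial.C ((i : ℝ) + 3 / 2) - Polynomial.X) with hf
  have hev : ∀ z : ℝ, f.eval z = c0 * ∏ i ∈ E, ((i : ℝ) + 3 / 2 - z) := by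
    intro z
    simp only [hf, Polynomial.eval_mul, Polynomial.eval_C, Polynomial.eval_prod, Polynomial.eval_sub,
      Polynomial.eval_X]
  refine ⟨f, ?_, ?_, ?_⟩
  · rw [hf]
    refine (Polynomial.natDegree_C_mul_le _ _).trans ?_
    refine (Polynomial.natDegree_prod_le _ _).trans ?_
    refine (Finset.sum_le_card_nsmul _ _ 1 ?_).trans ?_
    · intro i _
      refine (Polynomial.natDegree_sub_le _ _).trans ?_
      simp
    · simpa using hEc
  · rw [hev]
    apply mul_ne_zero hc0ne
    rw [Finset.prod_ne_zero_iff]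
    intro i _
    have : (0 : ℝ) ≤ i := Nat.cast_nonneg i
    linarith
  · -- induction
    have main : ∀ j : ℕ, ∀ hj : j < d + 3,
        0 < f.eval ((j : ℝ) + 1) * pp (⟨j, hj⟩ : Fin (d + 3)) * tau p j := by
      intro j
      induction j with
      | zero =>
        intro hj
        rw [hev]
        have h1 : 0 < ∏ i ∈ E, ((i : ℝ) + 3 / 2 - (((0 : ℕ) : ℝ) + 1)) := by
          apply Finset.prod_pos
          intro i _
          have : (0 : ℝ) ≤ i := Nat.cast_nonneg i
          push_cast; linarith
        have h2 : c0 * tau p 0 * pp (⟨0, hj⟩ : Fin (d + 3)) = (pp (⟨0, hj⟩ : Fin (d + 3))) ^ 2 := by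
          have : pp (0 : Fin (d + 3)) = pp (⟨0, hj⟩ : Fin (d + 3)) := rfl
          rw [hc0, this]
          have := tau_mul_self p 0
          calc tau p 0 * pp (⟨0, hj⟩ : Fin (d + 3)) * tau p 0 * pp (⟨0, hj⟩ : Fin (d + 3))
              = (tau p 0 * tau p 0) * (pp (⟨0, hj⟩ : Fin (d + 3))) ^ 2 := by ring
            _ = _ := by rw [this, one_mul]
        have h3 : 0 < (pp (⟨0, hj⟩ : Fin (d + 3))) ^ 2 := by
          have := pp_ne (⟨0, hj⟩ : Fin (d + 3))
          positivity
        calc (0 : ℝ) < (pp (⟨0, hj⟩ : Fin (d + 3))) ^ 2 * ∏ i ∈ E, ((i : ℝ) + 3 / 2 - (((0 : ℕ) : ℝ) + 1)) := mul_pos h3 h1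
          _ = _ := by rw [← h2]; ring
      | succ j ih =>
        intro hj
        have ihj := ih (by omega)
        have hpp := pp_mul_neg (m := d + 3) j hj
        have hfm : 0 < f.eval ((j : ℝ) + 1) * f.eval (((j + 1 : ℕ) : ℝ) + 1) *
            (if (p (j + 1) = p j + 1 ↔ p (j + 2) = p (j + 1) + 1) then -1 else 1) := by
          rw [hev, hev]
          have e1 : c0 * (∏ i ∈ E, ((i : ℝ) + 3 / 2 - ((j : ℝ) + 1))) *
              (c0 * ∏ i ∈ E, ((i : ℝ) + 3 / 2 - (((j + 1 : ℕ) : ℝ) + 1))) =
              c0 ^ 2 * ∏ i ∈ E, (((i : ℝ) + 3 / 2 - ((j : ℝ) + 1)) * ((i : ℝ) + 3 / 2 - (((j + 1 : ℕ) : ℝ) + 1))) := by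
            rw [Finset.prod_mul_distrib]; ring
          rw [e1]
          have hc2 : 0 < c0 ^ 2 := by positivity
          have hother : ∀ i : ℕ, i ≠ j → 0 < (((i : ℝ) + 3 / 2 - ((j : ℝ) + 1)) * ((i : ℝ) + 3 / 2 - (((j + 1 : ℕ) : ℝ) + 1))) := by
            intro i hij
            rcases Nat.lt_or_ge i j with h | h
            · have : (i : ℝ) + 1 ≤ j := by exact_mod_cast h
              apply mul_pos_of_neg_of_neg
              · linarith
              · push_cast; linarith
            · have h' : j + 1 ≤ i := by omega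
              have : (j : ℝ) + 1 ≤ i := by exact_mod_cast h'
              apply mul_pos
              · linarith
              · push_cast; linarith
          by_cases hjE : (p (j + 1) = p j + 1 ↔ p (j + 2) = p (j + 1) + 1)
          · rw [if_pos hjE]
            have hjm : j ∈ E := by
              rw [hE, mem_filter, mem_range]
              exact ⟨by omega, hjE⟩
            rw [← Finset.mul_prod_erase _ _ hjm]
            have h1 : 0 < ∏ i ∈ E.erase j, (((i : ℝ) + 3 / 2 - ((j : ℝ) + 1)) * ((i : ℝ) + 3 / 2 - (((j + 1 : ℕ) : ℝ) + 1))) := by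
              apply Finset.prod_pos
              intro i hi
              exact hother i (Finset.mem_erase.1 hi).1
            have h2 : (((j : ℝ) + 3 / 2 - ((j : ℝ) + 1)) * ((j : ℝ) + 3 / 2 - (((j + 1 : ℕ) : ℝ) + 1))) = - (1 / 4) := by
              push_cast; ring
            rw [h2]
            have := mul_pos hc2 h1
            nlinarith
          · rw [if_neg hjE]
            have hjm : j ∉ E := by
              rw [hE, mem_filter]
              exact fun h => hjE h.2
            have h1 : 0 < ∏ i ∈ E, (((i : ℝ) + 3 / 2 - ((j : ℝ) + 1)) * ((i : ℝ) + 3 / 2 - (((j + 1 : ℕ) : ℝ) + 1))) := by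
              apply Finset.prod_pos
              intro i hi
              exact hother i (fun h => hjm (h ▸ hi))
            have := mul_pos hc2 h1
            linarith
        have htm := tau_mul p j
        set F1 := f.eval ((j : ℝ) + 1)
        set F2 := f.eval (((j + 1 : ℕ) : ℝ) + 1)
        set P1 := pp (⟨j, by omega⟩ : Fin (d + 3))
        set P2 := pp (⟨j + 1, hj⟩ : Fin (d + 3))
        set T1 := tau p j
        set T2 := tau p (j + 1)
        -- (F1 P1 T1)(F2 P2 T2) > 0
        have hprod : 0 < (F1 * P1 * T1) * (F2 * P2 * T2) := by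
          have e : (F1 * P1 * T1) * (F2 * P2 * T2) = (F1 * F2) * (P1 * P2) * (T1 * T2) := by ring
          rw [e, htm]
          split_ifs at hfm ⊢ with h
          · nlinarith
          · nlinarith
        exact (mul_pos_iff_of_pos_left ihj).1 hprod
    intro i
    exact main i i.2

theorem realize (hd : 1 ≤ d) (hstep : ∀ j < d + 3, p (j + 1) = p j + 1 ∨ p j = p (j + 1) + 1)
    (hpos : ∀ j ≤ d + 3, 1 ≤ p j ∧ p j + 1 ≤ d + 3) (hend : p (d + 3) + p 0 = d + 3) :
    ∃ S : Finset (Fin d → ℝ), S.card = d + 3 ∧ GenPos S ∧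
      ∀ s, radonCount S s = vis (d + 3) p s := by
  obtain ⟨f, hf, hf0, hsign⟩ := exists_poly hstep hpos hend
  have hft : ∀ i : Fin (d + 3), f.eval (tt i) ≠ 0 := by
    intro i h
    have := hsign i
    rw [h] at this
    simp at this
  have G := gale_of_poly f hf hf0 hft
  have hx := G.injective (by omega)
  refine ⟨univ.map ⟨_, hx⟩, by simp, genPos_of_gale G rfl hx, ?_⟩
  intro s
  rw [radonCount_eq G (by omega) hx s]
  have hneg : ∀ i : Fin (d + 3), f.eval (tt i) / pp i < 0 ↔ p ((i : ℕ) + 1) = p i + 1 := by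
    intro i
    have h1 := hsign i
    have h2 := pp_ne i
    have h3 : f.eval (tt i) / pp i * (tau p i) = (f.eval (tt i) * pp i * tau p i) / (pp i) ^ 2 := by
      field_simp
    have h4 : 0 < f.eval (tt i) / pp i * (tau p i) := by
      rw [h3]; positivity
    unfold tau at h4
    split_ifs at h4 with h
    · constructor
      · intro _; exact h
      · intro _; linarith
    · constructor
      · intro h5; linarith
      · intro h5; exact absurd h5 h
  have hstep' : ∀ j, j < d + 3 → ((pc (fun i : Fin (d + 3) => f.eval (tt i) / pp i) (j + 1) : ℤ) -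
      pc (fun i : Fin (d + 3) => f.eval (tt i) / pp i) j = p (j + 1) - p j) := by
    intro j hj
    by_cases h : f.eval (tt (⟨j, hj⟩ : Fin (d + 3))) / pp (⟨j, hj⟩ : Fin (d + 3)) < 0
    · have h1 := pc_succ_neg (g := fun i : Fin (d + 3) => f.eval (tt i) / pp i) (j := ⟨j, hj⟩) h
      have h2 := (hneg ⟨j, hj⟩).1 h
      simp only at h1 h2
      rw [h1, h2]; push_cast; ring
    · have h1 := pc_succ_pos (g := fun i : Fin (d + 3) => f.eval (tt i) / pp i) (j := ⟨j, hj⟩) h
      have h2 : ¬ (p (j + 1) = p j + 1) := fun h3 => h ((hneg ⟨j, hj⟩).2 h3)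
      simp only at h1
      have h3 := hstep j hj
      omega
  have hconst : ∀ j, j ≤ d + 3 → ((pc (fun i : Fin (d + 3) => f.eval (tt i) / pp i) j : ℤ) - p j =
      pc (fun i : Fin (d + 3) => f.eval (tt i) / pp i) 0 - p 0) := by
    intro j hj
    induction j with
    | zero => rfl
    | succ j ih =>
      have := ih (by omega)
      have h2 := hstep' j (by omega)
      omega
  have hE := pc_end (g := fun i : Fin (d + 3) => f.eval (tt i) / pp i)
  have h0 := hconst (d + 3) le_rfl
  unfold vis
  congr 1
  apply Finset.filter_congr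
  intro j hj
  have h1 := hconst j (by have := mem_range.1 hj; omega)
  omega

end

theorem main (d : ℕ) (hd : 1 ≤ d) (r : ℕ → ℕ) :
    (∃ S : Finset (Fin d → ℝ), S.card = d + 3 ∧ GenPos S ∧
      ∀ s, 1 ≤ s → s ≤ (d + 3) / 2 → radonCount S s = r s) ↔ IsVec (d + 3) r := by
  constructor
  · rintro ⟨S, hS, hG, hr⟩
    -- enumerate
    let e := S.equivFinOfCardEq hS
    let x : Fin (d + 3) → Fin d → ℝ := fun i => (e.symm i : Fin d → ℝ)
    have hx : Function.Injective x := fun i j h => e.symm.injective (Subtype.ext h)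
    have hSx : univ.map ⟨x, hx⟩ = S := by
      ext z
      simp only [Finset.mem_map, Finset.mem_univ, true_and, Function.Embedding.coeFn_mk]
      constructor
      · rintro ⟨i, rfl⟩; exact (e.symm i).2
      · intro hz; exact ⟨e ⟨z, hz⟩, by simp [x]⟩
    obtain ⟨σ, g, t, G⟩ := exists_gale x hx (by rw [hSx]; exact hG)
    have hxσ : Function.Injective (x ∘ σ) := hx.comp σ.injective
    have hSσ : univ.map ⟨x ∘ σ, hxσ⟩ = S := by
      rw [← hSx]
      ext z
      simp only [Finset.mem_map, Finset.mem_univ, true_and, Function.Embedding.coeFn_mk, Function.comp]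
      constructor
      · rintro ⟨i, rfl⟩; exact ⟨σ i, rfl⟩
      · rintro ⟨i, rfl⟩; exact ⟨σ.symm i, by simp⟩
    have hvec : IsVec (d + 3) (vis (d + 3) (pc g)) :=
      walk_nec (by omega) (fun j hj => pc_step j hj) (fun j hj => pc_pos G (by omega) j hj) pc_end
    have hcount : ∀ s, radonCount S s = vis (d + 3) (pc g) s := by
      intro s
      rw [← radonCount_eq G (by omega) hxσ s, hSσ]
    have heq : ∀ s, 1 ≤ s → s ≤ (d + 3) / 2 → vis (d + 3) (pc g) s = r s := by
      intro s h1 h2
      rw [← hcount s, hr s h1 h2]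
    have halt : ∀ s, s ≤ (d + 3) / 2 → alt (vis (d + 3) (pc g)) s = alt r s := by
      intro s hs
      induction s with
      | zero => rfl
      | succ s ih => rw [alt, alt, ih (by omega), heq (s + 1) (by omega) hs]
    obtain ⟨a, h1, h2, h3, h4, h5, h6⟩ := hvec
    refine ⟨a, h1, h2, ?_, ?_, ?_, ?_⟩
    · intro s hs hsa
      rw [← heq s hs (by omega)]; exact h3 s hs hsa
    · intro s hs hsm
      rw [← halt s (by omega)]; exact h4 s hs hsm
    · intro s hs
      rw [← halt s (by omega)]; exact h5 s hs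
    · refine Eq.trans ?_ h6
      apply Finset.sum_congr rfl
      intro s hs
      rw [mem_Icc] at hs
      rw [heq s hs.1 hs.2]
  · intro h
    obtain ⟨p, hstep, hpos, hend, hvis⟩ := walk_suff (by omega) h
    obtain ⟨S, hS, hG, hr⟩ := realize hd hstep hpos hend
    refine ⟨S, hS, hG, fun s h1 h2 => ?_⟩
    rw [hr s, hvis s h1 (by omega)]

end Pool.Agent.H54.Radon
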