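import Pool.Agent.H54.Radon.Suff

namespace Pool.Agent.H54.Radon

open Finset

def IsDep {m d : ℕ} (x : Fin m → Fin d → ℝ) (l : Fin m → ℝ) : Prop :=
  ∑ i, l i = 0 ∧ ∑ i, l i • x i = 0

structure GaleForm {m d : ℕ} (x : Fin m → Fin d → ℝ) (g t : Fin m → ℝ) : Prop where
  ne : ∀ i, g i ≠ 0
  mono : StrictMono t
  dep : ∀ l, IsDep x l ↔ ∃ a b : ℝ, ∀ i, l i = g i * (a + b * t i)

/-- the sets cut by the rotating line -/
noncomputable def cut {m : ℕ} (g : Fin m → ℝ) (j : ℕ) : Finset (Fin m) :=
  univ.filter (fun i : Fin m => ((i : ℕ) < j ↔ g i < 0))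

section

variable {m d : ℕ} {x : Fin m → Fin d → ℝ} {g t : Fin m → ℝ}

lemma mem_cut {j : ℕ} {i : Fin m} : i ∈ cut g j ↔ ((i : ℕ) < j ↔ g i < 0) := by
  simp [cut]

lemma hull_to_dep (hx : Function.Injective x) (A : Finset (Fin m))
    (h : (convexHull ℝ ((A.map ⟨x, hx⟩ : Finset _) : Set (Fin d → ℝ)) ∩
      convexHull ℝ ((Aᶜ.map ⟨x, hx⟩ : Finset _) : Set (Fin d → ℝ))).Nonempty) :
    ∃ l, IsDep x l ∧ l ≠ 0 ∧ (∀ i ∈ A, 0 ≤ l i) ∧ (∀ i ∉ A, l i ≤ 0) := by
  obtain ⟨z, hz1, hz2⟩ := h
  rw [Finset.mem_convexHull'] at hz1 hz2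
  obtain ⟨w, hw0, hw1, hwz⟩ := hz1
  obtain ⟨v, hv0, hv1, hvz⟩ := hz2
  rw [Finset.sum_map] at hw1 hwz hv1 hvz
  simp only [Function.Embedding.coeFn_mk] at hw1 hwz hv1 hvz
  have hw0' : ∀ i ∈ A, 0 ≤ w (x i) := fun i hi => hw0 _ (by
    rw [Finset.mem_map]; exact ⟨i, hi, rfl⟩)
  have hv0' : ∀ i ∈ Aᶜ, 0 ≤ v (x i) := fun i hi => hv0 _ (by
    rw [Finset.mem_map]; exact ⟨i, hi, rfl⟩)
  refine ⟨fun i => if i ∈ A then w (x i) else - v (x i), ⟨?_, ?_⟩, ?_, ?_, ?_⟩
  · rw [← Finset.sum_add_sum_compl A]
    rw [Finset.sum_congr rfl (fun i hi => if_pos hi),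
      Finset.sum_congr rfl (fun i hi => if_neg (Finset.mem_compl.1 hi)), hw1, Finset.sum_neg_distrib,
      hv1]
    ring
  · rw [← Finset.sum_add_sum_compl A]
    have e1 : ∑ i ∈ A, (if i ∈ A then w (x i) else - v (x i)) • x i = ∑ i ∈ A, w (x i) • x i :=
      Finset.sum_congr rfl (fun i hi => by rw [if_pos hi])
    have e2 : ∑ i ∈ Aᶜ, (if i ∈ A then w (x i) else - v (x i)) • x i
        = - ∑ i ∈ Aᶜ, v (x i) • x i := by
      rw [← Finset.sum_neg_distrib]
      exact Finset.sum_congr rfl (fun i hi => by rw [if_neg (Finset.mem_compl.1 hi), neg_smul])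
    rw [e1, e2, hwz, hvz, add_neg_cancel]
  · intro h0
    have : ∑ i ∈ A, w (x i) = 0 := by
      apply Finset.sum_eq_zero
      intro i hi
      have := congrFun h0 i
      simpa [hi] using this
    linarith
  · intro i hi
    simp only [hi, if_true]
    exact hw0' i hi
  · intro i hi
    simp only [hi, if_false]
    have := hv0' i (Finset.mem_compl.2 hi)
    linarith

lemma dep_to_hull (hx : Function.Injective x) (A : Finset (Fin m)) (l : Fin m → ℝ)
    (hl : IsDep x l) (hm : 0 < m) (hA : ∀ i ∈ A, 0 < l i) (hA' : ∀ i ∉ A, l i < 0) :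
    A.Nonempty ∧ Aᶜ.Nonempty ∧ (convexHull ℝ ((A.map ⟨x, hx⟩ : Finset _) : Set (Fin d → ℝ)) ∩
      convexHull ℝ ((Aᶜ.map ⟨x, hx⟩ : Finset _) : Set (Fin d → ℝ))).Nonempty := by
  have h1 := hl.1
  have h2 := hl.2
  rw [← Finset.sum_add_sum_compl A] at h1 h2
  have hne : A.Nonempty := by
    by_contra hcon
    rw [Finset.not_nonempty_iff_eq_empty] at hcon
    subst hcon
    simp only [Finset.sum_empty, zero_add, Finset.compl_empty] at h1
    have : ∑ i, l i < 0 := Finset.sum_neg (fun i _ => hA' i (by simp))
      ⟨⟨0, hm⟩, Finset.mem_univ _⟩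
    linarith
  have hne' : Aᶜ.Nonempty := by
    by_contra hcon
    rw [Finset.not_nonempty_iff_eq_empty] at hcon
    rw [hcon, Finset.sum_empty, add_zero] at h1
    have : 0 < ∑ i ∈ A, l i := Finset.sum_pos hA hne
    linarith
  have hpos : 0 < ∑ i ∈ A, l i := Finset.sum_pos hA hne
  refine ⟨hne, hne', (∑ i ∈ A, l i)⁻¹ • ∑ i ∈ A, l i • x i, ?_, ?_⟩
  · have := Finset.centerMass_mem_convexHull A (s := ((A.map ⟨x, hx⟩ : Finset _) : Set (Fin d → ℝ)))
      (w := l) (z := x) (fun i hi => (hA i hi).le) hpos (fun i hi => by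
        rw [Finset.mem_coe, Finset.mem_map]; exact ⟨i, hi, rfl⟩)
    exact this
  · have hpos' : 0 < ∑ i ∈ Aᶜ, (- l i) := by rw [Finset.sum_neg_distrib]; linarith
    have := Finset.centerMass_mem_convexHull Aᶜ
      (s := ((Aᶜ.map ⟨x, hx⟩ : Finset _) : Set (Fin d → ℝ)))
      (w := fun i => - l i) (z := x) (fun i hi => by
        have := hA' i (Finset.mem_compl.1 hi); linarith) hpos' (fun i hi => by
        rw [Finset.mem_coe, Finset.mem_map]; exact ⟨i, hi, rfl⟩)
    rw [Finset.centerMass] at this
    have e1 : ∑ i ∈ Aᶜ, (- l i) = ∑ i ∈ A, l i := by rw [Finset.sum_neg_distrib]; linarith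
    have e2 : ∑ i ∈ Aᶜ, (- l i) • x i = ∑ i ∈ A, l i • x i := by
      simp only [neg_smul]
      rw [Finset.sum_neg_distrib]
      rw [neg_eq_iff_add_eq_zero, add_comm]; exact h2
    rw [e1, e2] at this
    exact this

lemma GaleForm.eq_zero (G : GaleForm x g t) {l : Fin m → ℝ} (hl : IsDep x l) {i j : Fin m}
    (hij : i ≠ j) (hi : l i = 0) (hj : l j = 0) : l = 0 := by
  obtain ⟨a, b, hab⟩ := (G.dep l).1 hl
  have h1 : a + b * t i = 0 := by
    have := hab i
    rw [hi] at this
    rcases mul_eq_zero.1 this.symm with h | h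
    · exact absurd h (G.ne i)
    · exact h
  have h2 : a + b * t j = 0 := by
    have := hab j
    rw [hj] at this
    rcases mul_eq_zero.1 this.symm with h | h
    · exact absurd h (G.ne j)
    · exact h
  have h3 : t i ≠ t j := fun h => hij (G.mono.injective h)
  have h4 : b * (t i - t j) = 0 := by linarith
  have hb : b = 0 := by
    rcases mul_eq_zero.1 h4 with h | h
    · exact h
    · exact absurd (sub_eq_zero.1 h) h3
  have ha : a = 0 := by rw [hb] at h1; linarith
  funext k
  rw [hab k, ha, hb]; simp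

lemma GaleForm.injective (G : GaleForm x g t) (hm : 4 ≤ m) : Function.Injective x := by
  intro i j hij
  by_contra hne
  classical
  obtain ⟨k, hk⟩ : ∃ k, k ∉ ({i, j} : Finset (Fin m)) := by
    by_contra hcon
    push Not at hcon
    have : (univ : Finset (Fin m)) ⊆ {i, j} := fun k _ => hcon k
    have h1 := Finset.card_le_card this
    have h2 := Finset.card_le_two (a := i) (b := j)
    rw [Finset.card_univ, Fintype.card_fin] at h1
    omega
  obtain ⟨k', hk'⟩ : ∃ k', k' ∉ ({i, j, k} : Finset (Fin m)) := by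
    by_contra hcon
    push Not at hcon
    have : (univ : Finset (Fin m)) ⊆ {i, j, k} := fun k _ => hcon k
    have h1 := Finset.card_le_card this
    have h2 := Finset.card_le_three (a := i) (b := j) (c := k)
    rw [Finset.card_univ, Fintype.card_fin] at h1
    omega
  simp only [Finset.mem_insert, Finset.mem_singleton, not_or] at hk hk'
  have hl : IsDep x (Pi.single i 1 - Pi.single j 1) := by
    constructor
    · simp
    · simp [sub_smul, Finset.sum_sub_distrib, Pi.single_apply, ite_smul, hij]
  have := G.eq_zero hl (i := k) (j := k') (fun h => hk'.2.2 h.symm) (by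
    simp [hk.1, hk.2]) (by simp [hk'.1, hk'.2.1])
  have := congrFun this i
  simp [hne] at this

lemma cut_succ_eq {j : Fin m} {i : Fin m} (hij : i ≠ j) : i ∈ cut g (j + 1) ↔ i ∈ cut g j := by
  rw [mem_cut, mem_cut]
  have : (i : ℕ) ≠ j := fun h => hij (Fin.ext h)
  have : (i : ℕ) < j + 1 ↔ (i : ℕ) < j := by omega
  rw [this]

/-- the key case analysis -/
lemma sign_to_cut (ht : StrictMono t) (hg : ∀ i, g i ≠ 0) {a b : ℝ} (hb : 0 < b) (A : Finset (Fin m))
    (h1 : ∀ i ∈ A, 0 ≤ g i * (a + b * t i)) (h2 : ∀ i ∉ A, g i * (a + b * t i) ≤ 0) :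
    ∃ j ≤ m, A = cut g j := by
  classical
  -- number of indices with negative value
  let j : ℕ := #{i : Fin m | a + b * t i < 0}
  have hj : ∀ i : Fin m, a + b * t i < 0 ↔ (i : ℕ) < j := by
    have hdown : ∀ i i' : Fin m, i' ≤ i → a + b * t i < 0 → a + b * t i' < 0 := by
      intro i i' hle h
      have := ht.monotone hle
      nlinarith
    intro i
    constructor
    · intro h
      have hsub : Finset.Iic i ⊆ ({i : Fin m | a + b * t i < 0} : Finset (Fin m)) := by
        intro k hk
        rw [Finset.mem_Iic] at hk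
        simp only [Finset.mem_filter, Finset.mem_univ, true_and]
        exact hdown i k hk h
      have := Finset.card_le_card hsub
      rw [Fin.card_Iic] at this
      show (i : ℕ) < #{i : Fin m | a + b * t i < 0}
      omega
    · intro h
      by_contra hcon
      have hsub : ({i : Fin m | a + b * t i < 0} : Finset (Fin m)) ⊆ Finset.Iio i := by
        intro k hk
        simp only [Finset.mem_filter, Finset.mem_univ, true_and] at hk
        rw [Finset.mem_Iio]
        by_contra hki
        exact hcon (hdown k i (not_lt.1 hki) hk)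
      have := Finset.card_le_card hsub
      rw [Fin.card_Iio] at this
      change (i : ℕ) < #{i : Fin m | a + b * t i < 0} at h
      omega
  have hjm : j ≤ m := by
    have := Finset.card_le_univ ({i : Fin m | a + b * t i < 0} : Finset (Fin m))
    rwa [Fintype.card_fin] at this
  -- membership away from zeros
  have hmem : ∀ i : Fin m, a + b * t i ≠ 0 → (i ∈ A ↔ i ∈ cut g j) := by
    intro i hi
    rw [mem_cut, ← hj i]
    have hgi := hg i
    rcases lt_or_gt_of_ne hi with hneg | hpos
    · constructor
      · intro hA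
        have := h1 i hA
        refine ⟨fun _ => ?_, fun _ => hneg⟩
        by_contra hcon
        have : 0 < g i := lt_of_le_of_ne (not_lt.1 hcon) hgi.symm
        nlinarith [mul_neg_of_pos_of_neg this hneg]
      · intro hc
        by_contra hA
        have := h2 i hA
        have hgn := hc.1 hneg
        nlinarith [mul_pos_of_neg_of_neg hgn hneg]
    · constructor
      · intro hA
        have := h1 i hA
        refine ⟨fun h => absurd h (not_lt.2 hpos.le), fun hgn => ?_⟩
        nlinarith [mul_neg_of_neg_of_pos hgn hpos]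
      · intro hc
        by_contra hA
        have := h2 i hA
        have hgp : 0 < g i := lt_of_le_of_ne (not_lt.1 (fun h => absurd (hc.2 h) (not_lt.2 hpos.le))) hgi.symm
        nlinarith [mul_pos hgp hpos]
  by_cases hz : ∃ i0 : Fin m, a + b * t i0 = 0 ∧ ¬ (i0 ∈ A ↔ i0 ∈ cut g j)
  · obtain ⟨i0, hi0, hne⟩ := hz
    have hi0j : (i0 : ℕ) = j := by
      have e1 : ¬ (i0 : ℕ) < j := by rw [← hj i0]; linarith
      by_contra hcon
      have h3 : j < i0 := by omega
      -- index j has value ≥ 0 but < value at i0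
      have h4 : ¬ (a + b * t ⟨j, by omega⟩ < 0) := by
        rw [hj]; simp
      have h5 : t ⟨j, by omega⟩ < t i0 := ht (by rw [Fin.lt_def]; exact h3)
      nlinarith
    refine ⟨j + 1, by have := i0.2; omega, ?_⟩
    ext i
    by_cases hii : i = i0
    · subst hii
      have e : i ∈ cut g (j + 1) ↔ ¬ i ∈ cut g j := by
        rw [mem_cut, mem_cut, hi0j]
        have a1 : (j < j + 1) = True := by simp
        have a2 : (j < j) = False := by simp
        rw [a1, a2]
        by_cases c : g i < 0 <;> simp [c]
      rw [e]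
      tauto
    · have hne' : a + b * t i ≠ 0 := by
        intro h0
        apply hii
        apply ht.injective
        have : b * (t i - t i0) = 0 := by linarith
        rcases mul_eq_zero.1 this with h | h
        · exact absurd h hb.ne'
        · linarith
      rw [hmem i hne', ← hi0j, cut_succ_eq hii]
  · push Not at hz
    refine ⟨j, hjm, ?_⟩
    ext i
    by_cases h0 : a + b * t i = 0
    · have := hz i h0; tauto
    · exact hmem i h0

lemma cut_compl_zero : (cut g 0)ᶜ = cut g m := by
  ext i
  rw [Finset.mem_compl, mem_cut, mem_cut]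
  have h1 : ¬ ((i : ℕ) < 0) := by omega
  have h2 : (i : ℕ) < m := i.2
  simp [h1, h2]

lemma radon_iff (G : GaleForm x g t) (hm : 4 ≤ m) (hx : Function.Injective x) (A : Finset (Fin m)) :
    (A.Nonempty ∧ Aᶜ.Nonempty ∧ (convexHull ℝ ((A.map ⟨x, hx⟩ : Finset _) : Set (Fin d → ℝ)) ∩
      convexHull ℝ ((Aᶜ.map ⟨x, hx⟩ : Finset _) : Set (Fin d → ℝ))).Nonempty) ↔
    ∃ j < m, A = cut g j ∨ Aᶜ = cut g j := by
  constructor
  · rintro ⟨-, -, h⟩
    obtain ⟨l, hl, hl0, h1, h2⟩ := hull_to_dep hx A h
    obtain ⟨a, b, hab⟩ := (G.dep l).1 hl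
    have main : ∃ j ≤ m, A = cut g j ∨ Aᶜ = cut g j := by
      rcases lt_trichotomy b 0 with hb | hb | hb
      · obtain ⟨j, hj, hA⟩ := sign_to_cut G.mono G.ne (a := -a) (b := -b) (by linarith) Aᶜ
          (by intro i hi
              have := h2 i (Finset.mem_compl.1 hi)
              rw [hab i] at this
              nlinarith)
          (by intro i hi
              have := h1 i (by simpa using hi)
              rw [hab i] at this
              nlinarith)
        exact ⟨j, hj, Or.inr hA⟩
      · subst hb
        have ha : a ≠ 0 := by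
          rintro rfl
          apply hl0
          funext i
          rw [hab i]; simp
        rcases lt_or_gt_of_ne ha with ha | ha
        · refine ⟨0, by omega, Or.inr ?_⟩
          ext i
          rw [Finset.mem_compl, mem_cut]
          have h0 : ¬ ((i : ℕ) < 0) := by omega
          simp only [h0, false_iff]
          have hgi := G.ne i
          constructor
          · intro hi hgn
            have := h2 i hi
            rw [hab i] at this
            nlinarith [mul_pos_of_neg_of_neg hgn ha]
          · intro hgn hi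
            have := h1 i hi
            rw [hab i] at this
            have hgp : 0 < g i := lt_of_le_of_ne (not_lt.1 hgn) hgi.symm
            nlinarith [mul_neg_of_pos_of_neg hgp ha]
        · refine ⟨0, by omega, Or.inl ?_⟩
          ext i
          rw [mem_cut]
          have h0 : ¬ ((i : ℕ) < 0) := by omega
          simp only [h0, false_iff]
          have hgi := G.ne i
          constructor
          · intro hi hgn
            have := h1 i hi
            rw [hab i] at this
            nlinarith [mul_neg_of_neg_of_pos hgn ha]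
          · intro hgn
            by_contra hi
            have := h2 i hi
            rw [hab i] at this
            have hgp : 0 < g i := lt_of_le_of_ne (not_lt.1 hgn) hgi.symm
            nlinarith [mul_pos hgp ha]
      · obtain ⟨j, hj, hA⟩ := sign_to_cut G.mono G.ne (a := a) (b := b) hb A
          (by intro i hi
              have := h1 i hi
              rwa [hab i] at this)
          (by intro i hi
              have := h2 i hi
              rwa [hab i] at this)
        exact ⟨j, hj, Or.inl hA⟩
    obtain ⟨j, hj, hA⟩ := main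
    rcases Nat.lt_or_ge j m with hjm | hjm
    · exact ⟨j, hjm, hA⟩
    · have : j = m := by omega
      subst this
      refine ⟨0, by omega, ?_⟩
      rcases hA with hA | hA
      · right; rw [hA, ← cut_compl_zero, compl_compl]
      · left
        rw [← compl_compl A, hA, ← cut_compl_zero, compl_compl]
  · -- converse
    have key : ∀ j < m, ∃ l, IsDep x l ∧ (∀ i ∈ cut g j, 0 < l i) ∧ (∀ i ∉ cut g j, l i < 0) := by
      intro j hj
      obtain ⟨a, b, hab⟩ : ∃ a b : ℝ, ∀ i : Fin m, ((i : ℕ) < j → a + b * t i < 0) ∧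
          (¬ (i : ℕ) < j → 0 < a + b * t i) := by
        rcases Nat.eq_zero_or_pos j with h0 | h0
        · subst h0
          exact ⟨1, 0, fun i => ⟨fun h => absurd h (by omega), fun _ => by simp⟩⟩
        · refine ⟨-(t ⟨j - 1, by omega⟩ + t ⟨j, hj⟩) / 2, 1, fun i => ⟨fun h => ?_, fun h => ?_⟩⟩
          · have e1 : t i ≤ t ⟨j - 1, by omega⟩ := G.mono.monotone (by rw [Fin.le_def]; simp only; omega)
            have e2 : t ⟨j - 1, by omega⟩ < t ⟨j, hj⟩ := G.mono (by rw [Fin.lt_def]; simp only; omega)
            linarith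
          · have e1 : t ⟨j, hj⟩ ≤ t i := G.mono.monotone (by rw [Fin.le_def]; simp only; omega)
            have e2 : t ⟨j - 1, by omega⟩ < t ⟨j, hj⟩ := G.mono (by rw [Fin.lt_def]; simp only; omega)
            linarith
      refine ⟨fun i => g i * (a + b * t i), (G.dep _).2 ⟨a, b, fun i => rfl⟩, ?_, ?_⟩
      · intro i hi
        rw [mem_cut] at hi
        by_cases c : (i : ℕ) < j
        · exact mul_pos_of_neg_of_neg (hi.1 c) ((hab i).1 c)
        · have : 0 < g i := lt_of_le_of_ne (not_lt.1 (fun h => c (hi.2 h))) (G.ne i).symm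
          exact mul_pos this ((hab i).2 c)
      · intro i hi
        rw [mem_cut] at hi
        by_cases c : (i : ℕ) < j
        · have : 0 < g i := lt_of_le_of_ne (not_lt.1 (fun h => hi ⟨fun _ => h, fun _ => c⟩)) (G.ne i).symm
          exact mul_neg_of_pos_of_neg this ((hab i).1 c)
        · have : g i < 0 := by
            by_contra hcon
            exact hi ⟨fun h => absurd h c, fun h => absurd h hcon⟩
          exact mul_neg_of_neg_of_pos this ((hab i).2 c)
    rintro ⟨j, hj, hA | hA⟩
    · obtain ⟨l, hl, h1, h2⟩ := key j hj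
      rw [← hA] at h1 h2
      exact dep_to_hull hx A l hl (by omega) h1 h2
    · obtain ⟨l, hl, h1, h2⟩ := key j hj
      rw [← hA] at h1 h2
      have := dep_to_hull hx Aᶜ l hl (by omega) h1 h2
      rw [compl_compl] at this
      exact ⟨this.2.1, this.1, by rw [Set.inter_comm]; exact this.2.2⟩

end

end Pool.Agent.H54.Radon
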