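import Pool.Agent.H54.Radon.Walk

namespace Pool.Agent.H54.Radon

open Finset

/-- `L ++ [b]` is a walk with steps `±1` starting at `a`. -/
def Path : ℕ → List ℕ → ℕ → Prop
  | a, [], b => a = b
  | a, x :: L, b => x = a ∧ ∃ c, (c = a + 1 ∨ a = c + 1) ∧ Path c L b

lemma Path.append {a b c : ℕ} {L L' : List ℕ} (h : Path a L b) (h' : Path b L' c) :
    Path a (L ++ L') c := by
  induction L generalizing a with
  | nil => simp only [Path] at h; subst h; exact h'
  | cons x L ih =>
    obtain ⟨h1, c', h2, h3⟩ := h
    exact ⟨h1, c', h2, ih h3⟩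

lemma Path.up (a : ℕ) : Path a [a] (a + 1) := ⟨rfl, a + 1, Or.inl rfl, rfl⟩
lemma Path.down (a : ℕ) : Path (a + 1) [a + 1] a := ⟨rfl, a, Or.inr rfl, rfl⟩

/-- position function of a path -/
def pos (L : List ℕ) (b : ℕ) (j : ℕ) : ℕ := (L ++ [b]).getD j 0

lemma Path.head {a b : ℕ} {L : List ℕ} (h : Path a L b) : pos L b 0 = a := by
  cases L with
  | nil => simp only [Path] at h; simp [pos, h]
  | cons x L => simp [pos, h.1]

lemma Path.last {b : ℕ} {L : List ℕ} : pos L b L.length = b := by
  simp [pos]

lemma Path.step {a b : ℕ} {L : List ℕ} (h : Path a L b) (j : ℕ) (hj : j < L.length) :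
    pos L b (j + 1) = pos L b j + 1 ∨ pos L b j = pos L b (j + 1) + 1 := by
  induction L generalizing a j with
  | nil => simp at hj
  | cons x L ih =>
    obtain ⟨h1, c, h2, h3⟩ := h
    cases j with
    | zero =>
      have e1 : pos (x :: L) b (0 + 1) = pos L b 0 := by simp [pos]
      have e2 : pos (x :: L) b 0 = x := by simp [pos]
      rw [e1, e2, h3.head]
      omega
    | succ j =>
      have e1 : pos (x :: L) b (j + 1 + 1) = pos L b (j + 1) := by simp [pos]
      have e2 : pos (x :: L) b (j + 1) = pos L b j := by simp [pos]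
      rw [e1, e2]
      exact ih h3 j (by simpa using hj)

lemma pos_mem {L : List ℕ} {b : ℕ} {j : ℕ} (hj : j < L.length) : pos L b j ∈ L := by
  have : pos L b j = L[j] := by
    simp [pos, List.getElem?_append_left hj, List.getD_eq_getElem?_getD, List.getElem?_eq_getElem hj]
  rw [this]
  exact List.getElem_mem hj

lemma card_eq_countP (L : List ℕ) (b : ℕ) (P : ℕ → Prop) [DecidablePred P] :
    #{j ∈ range L.length | P (pos L b j)} = L.countP (fun v => decide (P v)) := by
  induction L with
  | nil => simp
  | cons x L ih =>
    rw [card_filter, List.length_cons, Finset.sum_range_succ']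
    have e1 : ∀ j, pos (x :: L) b (j + 1) = pos L b j := by intro j; simp [pos]
    have e2 : pos (x :: L) b 0 = x := by simp [pos]
    rw [List.countP_cons, ← ih, card_filter]
    simp only [e1, e2, decide_eq_true_eq]

/-- zigzag -/
def zig : ℕ → ℕ → List ℕ
  | 0, _ => []
  | n + 1, b => b :: (b + 1) :: zig n b

lemma zig_path (n b : ℕ) : Path b (zig n b) b := by
  induction n with
  | zero => rfl
  | succ n ih => exact ⟨rfl, b + 1, Or.inl rfl, rfl, b, Or.inr rfl, ih⟩

lemma zig_countP (n b : ℕ) (P : ℕ → Bool) :
    (zig n b).countP P = n * ((if P b then 1 else 0) + (if P (b + 1) then 1 else 0)) := by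
  induction n with
  | zero => simp [zig]
  | succ n ih =>
    simp only [zig, List.countP_cons, ih]
    ring

lemma zig_length (n b : ℕ) : (zig n b).length = 2 * n := by
  induction n with
  | zero => rfl
  | succ n ih => simp only [zig, List.length_cons, ih]; ring

lemma zig_mem {n b v : ℕ} (h : v ∈ zig n b) : v = b ∨ v = b + 1 := by
  induction n with
  | zero => simp [zig] at h
  | succ n ih =>
    simp only [zig, List.mem_cons] at h
    tauto

/-- excursion through levels `a, ..., a+k-1` started from position `m-a-k`. -/
def Ex (m a : ℕ) (x : ℕ → ℕ) : ℕ → List ℕ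
  | 0 => []
  | k + 1 => zig (x (a + k) - 1) (m - a - (k + 1)) ++
      ([m - a - (k + 1)] ++ (Ex m a x k ++ [m - a - (k + 1) + 1]))

variable {m a : ℕ} {x : ℕ → ℕ}

lemma Ex_path (k : ℕ) (hk : a + k ≤ m) : Path (m - a - k) (Ex m a x k) (m - a - k) := by
  induction k with
  | zero => rfl
  | succ k ih =>
    have ih' := ih (by omega)
    have e : m - a - k = m - a - (k + 1) + 1 := by omega
    rw [e] at ih'
    exact (zig_path _ _).append ((Path.up _).append (ih'.append (Path.down _)))

lemma Ex_mem (k : ℕ) (hk : a + k ≤ m) {v : ℕ} (hv : v ∈ Ex m a x k) :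
    m - a - k ≤ v ∧ v ≤ m - a := by
  induction k with
  | zero => simp [Ex] at hv
  | succ k ih =>
    simp only [Ex, List.mem_append, List.mem_singleton] at hv
    rcases hv with hv | hv | hv | hv
    · have := zig_mem hv; omega
    · omega
    · have := ih (by omega) hv; omega
    · omega

lemma Ex_length (k : ℕ) (hx : ∀ i < k, 1 ≤ x (a + i)) :
    (Ex m a x k).length = 2 * ∑ i ∈ range k, x (a + i) := by
  induction k with
  | zero => rfl
  | succ k ih =>
    simp only [Ex, List.length_append, List.length_singleton, zig_length]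
    rw [ih (fun i hi => hx i (by omega)), Finset.sum_range_succ]
    have := hx k (by omega)
    omega

lemma Ex_countP (k : ℕ) (hk : a + k ≤ m) (hx : ∀ i < k, 1 ≤ x (a + i)) (s : ℕ) (hs : s ≤ m) :
    (Ex m a x k).countP (fun v => decide (v + s = m)) =
      (if a ≤ s ∧ s < a + k then x s else 0) + (if a + 1 ≤ s ∧ s ≤ a + k then x (s - 1) else 0) := by
  induction k with
  | zero =>
    simp only [Ex, List.countP_nil]
    split_ifs <;> omega
  | succ k ih =>
    simp only [Ex, List.countP_append, List.countP_singleton, zig_countP]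
    rw [ih (by omega) (fun i hi => hx i (by omega))]
    have h1 := hx k (by omega)
    have e1 : (m - a - (k + 1) + s = m) ↔ s = a + k + 1 := by omega
    have e2 : (m - a - (k + 1) + 1 + s = m) ↔ s = a + k := by omega
    simp only [decide_eq_true_eq, e1, e2]
    by_cases c1 : s = a + k + 1
    · subst c1
      have : ¬ (a + k + 1 = a + k) := by omega
      simp only [this, if_true, if_false]
      split_ifs <;> first | omega | (simp only [Nat.add_sub_cancel]; omega)
    · by_cases c2 : s = a + k
      · subst c2
        simp only [c1, if_true, if_false]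
        split_ifs <;> omega
      · simp only [c1, c2, if_false]
        split_ifs <;> omega

lemma alt_zero_of_lt {r : ℕ → ℕ} {a : ℕ} (h : ∀ s, 1 ≤ s → s < a → r s = 0) (s : ℕ) (hs : s < a) :
    alt r s = 0 := by
  induction s with
  | zero => rfl
  | succ s ih => rw [alt, ih (by omega), h (s+1) (by omega) hs]; simp

lemma sum_r (r : ℕ → ℕ) (h : ℕ) :
    (∑ s ∈ Icc 1 h, (r s : ℤ)) = alt r h + 2 * ∑ s ∈ range h, alt r s := by
  induction h with
  | zero => simp [alt]
  | succ h ih =>
    rw [Finset.sum_Icc_succ_top (by omega), ih, Finset.sum_range_succ, alt]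
    ring

theorem walk_suff {m : ℕ} {r : ℕ → ℕ} (hm : 1 ≤ m) (h : IsVec m r) :
    ∃ p : ℕ → ℕ, (∀ j < m, p (j + 1) = p j + 1 ∨ p j = p (j + 1) + 1) ∧
      (∀ j ≤ m, 1 ≤ p j ∧ p j + 1 ≤ m) ∧ p m + p 0 = m ∧
      ∀ s, 1 ≤ s → 2 * s ≤ m → vis m p s = r s := by
  obtain ⟨a, ha1, ha2, hlow, halt, hmid, hsum⟩ := h
  set h := m / 2 with hh
  have hsum' : (∑ s ∈ Icc 1 h, (r s : ℤ)) = m := by exact_mod_cast hsum
  rw [sum_r] at hsum'
  set x : ℕ → ℕ := fun s => (alt r s).toNat with hx
  have hx1 : ∀ i < h - a, 1 ≤ x (a + i) := by
    intro i hi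
    have := halt (a + i) (by omega) (by omega)
    simp only [hx]; omega
  have hxz : ∀ s, 2 * s < m → (x s : ℤ) = alt r s := by
    intro s hs
    by_cases c : s < a
    · simp [hx, alt_zero_of_lt hlow s c]
    · have := halt s (by omega) hs
      simp only [hx]; omega
  have hsumx : ∑ s ∈ range h, alt r s = ∑ i ∈ range (h - a), (x (a + i) : ℤ) := by
    have : h = a + (h - a) := by omega
    conv_lhs => rw [this]
    rw [Finset.sum_range_add]
    rw [Finset.sum_eq_zero (fun s hs => alt_zero_of_lt hlow s (mem_range.1 hs)), zero_add]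
    apply sum_congr rfl
    intro i hi
    have := mem_range.1 hi
    rw [hxz (a + i) (by omega)]
  have hlenE := Ex_length (m := m) (h - a) hx1
  have hr : ∀ s, (r (s + 1) : ℤ) = alt r (s + 1) + alt r s := by intro s; rw [alt]; ring
  rcases Nat.even_or_odd' m with ⟨t, ht | ht⟩
  · -- even
    have ht' : h = t := by omega
    have hmid' := hmid h (by omega)
    have hlen : (Ex m a x (h - a)).length = m := by
      rw [hlenE]; rw [hmid', hsumx, ← Nat.cast_sum] at hsum'; omega
    have hP : Path h (Ex m a x (h - a)) h := by
      have := Ex_path (m := m) (a := a) (x := x) (h - a) (by omega)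
      rwa [show m - a - (h - a) = h by omega] at this
    refine ⟨pos (Ex m a x (h - a)) h, ?_, ?_, ?_, ?_⟩
    · intro j hj; exact hP.step j (by omega)
    · intro j hj
      rcases Nat.lt_or_ge j m with hj' | hj'
      · have := Ex_mem (m := m) (h - a) (by omega) (pos_mem (b := h) (L := Ex m a x (h - a)) (j := j) (by omega))
        omega
      · have : j = (Ex m a x (h - a)).length := by omega
        rw [this, Path.last]; omega
    · rw [hP.head]
      have := Path.last (b := h) (L := Ex m a x (h - a))
      rw [hlen] at this
      rw [this]; omega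
    · intro s hs1 hs2
      have e1 : vis m (pos (Ex m a x (h - a)) h) s
          = (Ex m a x (h - a)).countP (fun v => decide (v + s = m)) := by
        unfold vis
        conv_lhs => rw [← hlen]
        rw [← card_eq_countP (Ex m a x (h - a)) h (fun v => v + s = m)]
        congr 1
        apply Finset.filter_congr
        intro j hj
        have := Ex_mem (m := m) (h - a) (by omega) (pos_mem (b := h) (L := Ex m a x (h - a)) (j := j) (mem_range.1 hj))
        rw [hlen]
        omega
      rw [e1, Ex_countP (h - a) (by omega) hx1 s (by omega)]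
      obtain ⟨s, rfl⟩ : ∃ s', s = s' + 1 := ⟨s - 1, by omega⟩
      have hr' := hr s
      have h1 : (x s : ℤ) = alt r s := hxz s (by omega)
      simp only [Nat.add_sub_cancel]
      have hlt : s < a → alt r s = 0 := alt_zero_of_lt hlow s
      have hlt' : s + 1 < a → alt r (s + 1) = 0 := alt_zero_of_lt hlow (s + 1)
      rcases Nat.lt_or_ge (2 * (s + 1)) m with c | c
      · have h2 := hxz (s + 1) c
        split_ifs <;> omega
      · have h3 := hmid (s + 1) (by omega)
        split_ifs <;> omega
  · -- odd
    have ht' : h = t := by omega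
    have h1 := halt h (by omega) (by omega)
    obtain ⟨i, hi⟩ : ∃ i : ℕ, alt r h = 2 * i + 1 := by
      have : alt r h % 2 = 1 := by rw [hsumx] at hsum'; omega
      exact ⟨(alt r h / 2).toNat, by omega⟩
    set L := (zig i h ++ [h]) ++ Ex m a x (h - a) with hL
    have hlen : L.length = m := by
      simp only [hL, List.length_append, zig_length, List.length_singleton]
      rw [hlenE]; rw [hi, hsumx, ← Nat.cast_sum] at hsum'; omega
    have hP : Path h L (h + 1) := by
      have := Ex_path (m := m) (a := a) (x := x) (h - a) (by omega)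
      rw [show m - a - (h - a) = h + 1 by omega] at this
      exact ((zig_path _ _).append (Path.up _)).append this
    have hmem : ∀ v ∈ L, h ≤ v ∧ v ≤ m - a := by
      intro v hv
      simp only [hL, List.mem_append, List.mem_singleton] at hv
      rcases hv with (hv | hv) | hv
      · have := zig_mem hv; omega
      · omega
      · have := Ex_mem (m := m) (h - a) (by omega) hv; omega
    refine ⟨pos L (h + 1), ?_, ?_, ?_, ?_⟩
    · intro j hj; exact hP.step j (by omega)
    · intro j hj
      rcases Nat.lt_or_ge j m with hj' | hj'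
      · have := hmem _ (pos_mem (b := h + 1) (L := L) (j := j) (by omega))
        omega
      · have : j = L.length := by omega
        rw [this, Path.last]; omega
    · rw [hP.head]
      have := Path.last (b := h + 1) (L := L)
      rw [hlen] at this
      rw [this]; omega
    · intro s hs1 hs2
      have e1 : vis m (pos L (h + 1)) s = L.countP (fun v => decide (v = s ∨ v + s = m)) := by
        unfold vis
        conv_lhs => rw [← hlen]
        rw [← card_eq_countP L (h + 1) (fun v => v = s ∨ v + s = m), hlen]
      have e2 : (Ex m a x (h - a)).countP (fun v => decide (v = s ∨ v + s = m))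
          = (Ex m a x (h - a)).countP (fun v => decide (v + s = m)) := by
        apply List.countP_congr
        intro v hv
        have := Ex_mem (m := m) (h - a) (by omega) hv
        simp only [decide_eq_true_eq]
        omega
      rw [e1, hL, List.countP_append, e2, List.countP_append, List.countP_singleton, zig_countP,
        Ex_countP (h - a) (by omega) hx1 s (by omega)]
      simp only [decide_eq_true_eq]
      obtain ⟨s, rfl⟩ : ∃ s', s = s' + 1 := ⟨s - 1, by omega⟩
      have hr' := hr s
      have h1 : (x s : ℤ) = alt r s := hxz s (by omega)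
      simp only [Nat.add_sub_cancel]
      have hlt : s < a → alt r s = 0 := alt_zero_of_lt hlow s
      have hlt' : s + 1 < a → alt r (s + 1) = 0 := alt_zero_of_lt hlow (s + 1)
      have h2 := hxz (s + 1) (by omega)
      rcases Nat.lt_or_ge (s + 1) h with c | c
      · have c1 : ¬ (h = s + 1 ∨ h + (s + 1) = m) := by omega
        have c2 : ¬ (h + 1 = s + 1 ∨ h + 1 + (s + 1) = m) := by omega
        simp only [c1, c2, if_false]
        split_ifs <;> omega
      · have c0 : s + 1 = h := by omega
        have c1 : (h = s + 1 ∨ h + (s + 1) = m) := by omega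
        have c2 : (h + 1 = s + 1 ∨ h + 1 + (s + 1) = m) := by omega
        simp only [c1, c2, if_true]
        rw [← c0] at hi
        split_ifs <;> omega

end Pool.Agent.H54.Radon
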