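import Pool.Agent.H54.Radon.SuppBase

namespace Pool.Agent.H54.Radon

open Finset

section

variable {m d : ℕ} {x : Fin m → Fin d → ℝ}

/-- a nonzero dependency with small support -/
lemma small_dep {e : ℕ} (y : Fin m → Fin e → ℝ) (hm : e + 2 ≤ m) :
    ∃ l, IsDep y l ∧ l ≠ 0 ∧ ∀ i : Fin m, e + 2 ≤ (i : ℕ) → l i = 0 := by
  classical
  let L : (Fin (e + 2) → ℝ) →ₗ[ℝ] (ℝ × (Fin e → ℝ)) :=
    { toFun := fun l => (∑ i, l i, ∑ i, l i • y (Fin.castLE hm i))
      map_add' := by
        intro a b
        simp only [Pi.add_apply, add_smul, Finset.sum_add_distrib, Prod.mk_add_mk]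
      map_smul' := by
        intro c a
        simp only [Pi.smul_apply, smul_eq_mul, mul_smul, RingHom.id_apply, Prod.smul_mk,
          Finset.mul_sum, Finset.smul_sum] }
  have hfin : Module.finrank ℝ (ℝ × (Fin e → ℝ)) < Module.finrank ℝ (Fin (e + 2) → ℝ) := by
    simp only [Module.finrank_prod, Module.finrank_self, Module.finrank_fin_fun]
    omega
  have hker := L.ker_ne_bot_of_finrank_lt hfin
  obtain ⟨u, hu, hu0⟩ := (Submodule.ne_bot_iff _).1 hker
  rw [LinearMap.mem_ker] at hu
  have hu' : (∑ i, u i, ∑ i, u i • y (Fin.castLE hm i)) = ((0 : ℝ), (0 : Fin e → ℝ)) := hu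
  rw [Prod.mk.injEq] at hu'
  let l : Fin m → ℝ := fun i => if h : (i : ℕ) < e + 2 then u ⟨i, h⟩ else 0
  have hlc : ∀ i : Fin (e + 2), l (Fin.castLE hm i) = u i := by
    intro i
    have : ((Fin.castLE hm i : Fin m) : ℕ) < e + 2 := i.2
    simp only [l, this, dif_pos]
    rfl
  have himg : ∀ i : Fin m, i ∉ univ.map (Fin.castLEEmb hm) → l i = 0 := by
    intro i hi
    have : ¬ (i : ℕ) < e + 2 := by
      intro h
      apply hi
      rw [Finset.mem_map]
      exact ⟨⟨i, h⟩, Finset.mem_univ _, Fin.ext rfl⟩
    simp only [l, this, dif_neg, not_false_eq_true]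
  refine ⟨l, ⟨?_, ?_⟩, ?_, ?_⟩
  · rw [← Finset.sum_subset (Finset.subset_univ (univ.map (Fin.castLEEmb hm))) (fun i _ hi => himg i hi),
      Finset.sum_map]
    rw [← hu'.1]
    exact Finset.sum_congr rfl (fun i _ => hlc i)
  · rw [← Finset.sum_subset (Finset.subset_univ (univ.map (Fin.castLEEmb hm)))
      (fun i _ hi => by rw [himg i hi, zero_smul]), Finset.sum_map]
    rw [← hu'.2]
    exact Finset.sum_congr rfl (fun i _ => by
      rw [show (Fin.castLEEmb hm) i = Fin.castLE hm i from rfl, hlc i])
  · intro h
    apply hu0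
    funext i
    rw [← hlc i, h]; rfl
  · intro i hi
    have : ¬ (i : ℕ) < e + 2 := by omega
    simp only [l, this, dif_neg, not_false_eq_true]

/-- a second dependency -/
lemma second_dep (hm : d + 3 ≤ m) {l : Fin m → ℝ} (hl0 : l ≠ 0) :
    ∃ u, IsDep x u ∧ ∀ a b : ℝ, (fun i => a * l i + b * u i) = 0 → a = 0 ∧ b = 0 := by
  classical
  obtain ⟨k, hk⟩ : ∃ k, l k ≠ 0 := by
    by_contra hcon
    push Not at hcon
    exact hl0 (funext hcon)
  let L : (Fin m → ℝ) →ₗ[ℝ] (ℝ × (ℝ × (Fin d → ℝ))) :=
    { toFun := fun l => (l k, (∑ i, l i, ∑ i, l i • x i))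
      map_add' := by
        intro a b
        simp only [Pi.add_apply, add_smul, Finset.sum_add_distrib, Prod.mk_add_mk]
      map_smul' := by
        intro c a
        simp only [Pi.smul_apply, smul_eq_mul, mul_smul, RingHom.id_apply, Prod.smul_mk,
          Finset.mul_sum, Finset.smul_sum] }
  have hfin : Module.finrank ℝ (ℝ × (ℝ × (Fin d → ℝ))) < Module.finrank ℝ (Fin m → ℝ) := by
    simp only [Module.finrank_prod, Module.finrank_self, Module.finrank_fin_fun]
    omega
  have hker := L.ker_ne_bot_of_finrank_lt hfin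
  obtain ⟨u, hu, hu0⟩ := (Submodule.ne_bot_iff _).1 hker
  rw [LinearMap.mem_ker] at hu
  have hu' : (u k, (∑ i, u i, ∑ i, u i • x i)) = ((0 : ℝ), ((0 : ℝ), (0 : Fin d → ℝ))) := hu
  rw [Prod.mk.injEq, Prod.mk.injEq] at hu'
  refine ⟨u, ⟨hu'.2.1, hu'.2.2⟩, ?_⟩
  intro a b h
  have h1 := congrFun h k
  simp only [hu'.1, mul_zero, add_zero, Pi.zero_apply] at h1
  have ha : a = 0 := by
    rcases mul_eq_zero.1 h1 with h | h
    · exact h
    · exact absurd h hk
  refine ⟨ha, ?_⟩
  obtain ⟨j, hj⟩ : ∃ j, u j ≠ 0 := by
    by_contra hcon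
    push Not at hcon
    exact hu0 (funext hcon)
  have h2 := congrFun h j
  simp only [ha, zero_mul, zero_add, Pi.zero_apply] at h2
  rcases mul_eq_zero.1 h2 with h | h
  · exact h
  · exact absurd h hj

lemma comp_pos {l : Fin m → ℝ} (hl : IsDep x l) (hl0 : l ≠ 0) :
    Comp x (univ.filter (fun i => 0 < l i)) l := by
  refine ⟨hl, hl0, ?_, ?_⟩
  · intro i hi; exact (Finset.mem_filter.1 hi).2.le
  · intro i hi
    rw [Finset.mem_filter] at hi
    push Not at hi
    exact hi (Finset.mem_univ _)

/-- small Radon part from a dependency supported on `k` points -/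
lemma small_part {k : ℕ} {l : Fin m → ℝ} (hl : IsDep x l) (hl0 : l ≠ 0)
    (hk : ∀ i : Fin m, k ≤ (i : ℕ) → l i = 0) : ∃ A : Finset (Fin m), 2 * A.card ≤ k ∧ RadA x A := by
  classical
  set P := (univ.filter (fun i : Fin m => 0 < l i)) with hP
  set N := (univ.filter (fun i : Fin m => 0 < (-l) i)) with hN
  have hPN : Disjoint P N := by
    rw [Finset.disjoint_left]
    intro i h1 h2
    have e1 := (Finset.mem_filter.1 h1).2
    have e2 := (Finset.mem_filter.1 h2).2
    simp only [Pi.neg_apply] at e2
    linarith
  have hcard : P.card + N.card ≤ k := by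
    rw [← Finset.card_union_of_disjoint hPN]
    have hsub : P ∪ N ⊆ univ.filter (fun i : Fin m => (i : ℕ) < k) := by
      intro i hi
      rw [Finset.mem_filter]
      refine ⟨Finset.mem_univ _, ?_⟩
      by_contra hcon
      have h0 := hk i (by omega)
      rcases Finset.mem_union.1 hi with h | h
      · have := (Finset.mem_filter.1 h).2
        linarith
      · have := (Finset.mem_filter.1 h).2
        simp only [Pi.neg_apply] at this
        linarith
    refine (Finset.card_le_card hsub).trans ?_
    have : (univ.filter (fun i : Fin m => (i : ℕ) < k)).card ≤ (range k).card := by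
      apply Finset.card_le_card_of_injOn (fun i : Fin m => (i : ℕ))
      · intro i hi
        have := (Finset.mem_filter.1 (Finset.mem_coe.1 hi)).2
        simpa using this
      · intro i _ j _ h; exact Fin.ext h
    rwa [card_range] at this
  by_cases h : P.card ≤ N.card
  · exact ⟨P, by omega, l, comp_pos hl hl0⟩
  · exact ⟨N, by omega, -l, comp_pos hl.neg (neg_ne_zero.2 hl0)⟩

lemma three_le (hx : Function.Injective x) {l : Fin m → ℝ} (hl : IsDep x l) (hl0 : l ≠ 0) :
    3 ≤ m := by
  classical
  by_contra hm
  apply hl0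
  have hm' : m = 0 ∨ m = 1 ∨ m = 2 := by omega
  rcases hm' with rfl | rfl | rfl
  · funext i; exact i.elim0
  · have := hl.1
    rw [Fin.sum_univ_one] at this
    funext i
    rw [Subsingleton.elim i 0, this]; rfl
  · have h1 := hl.1
    have h2 := hl.2
    rw [Fin.sum_univ_two] at h1 h2
    have h3 : l 1 = - l 0 := by linarith
    have h4 : l 0 • (x 0 - x 1) = 0 := by
      rw [h3] at h2
      rw [smul_sub, ← h2, neg_smul]; abel
    have h5 : l 0 = 0 := by
      rcases smul_eq_zero.1 h4 with h | h
      · exact h
      · have := hx (sub_eq_zero.1 h)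
        exact absurd this (by decide)
    funext i
    fin_cases i
    · exact h5
    · simp only [Fin.mk_one, Pi.zero_apply]; rw [h3, h5]; simp

/-- one-dimensional case -/
lemma one_dim {l : Fin m → ℝ} (hl : IsDep x l) (hl0 : l ≠ 0)
    (hall : ∀ u, IsDep x u → ∃ c : ℝ, ∀ i, u i = c * l i)
    (hPN : (univ.filter (fun i : Fin m => 0 < l i)).card ≤ (univ.filter (fun i : Fin m => l i < 0)).card)
    (s : ℕ) (hs : s ≤ m / 2) :
    (∃ A : Finset (Fin m), A.card = s ∧ RadA x A) ↔
      (univ.filter (fun i : Fin m => 0 < l i)).card ≤ s ∧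
        s ≤ m - (univ.filter (fun i : Fin m => l i < 0)).card := by
  classical
  set P := (univ.filter (fun i : Fin m => 0 < l i)) with hP
  set N := (univ.filter (fun i : Fin m => l i < 0)) with hN
  have hNc : (Nᶜ).card = m - N.card := by rw [Finset.card_compl, Fintype.card_fin]
  have hPNc : P ⊆ Nᶜ := by
    intro i hi
    rw [Finset.mem_compl, hN, Finset.mem_filter]
    have := (Finset.mem_filter.1 hi).2
    rintro ⟨-, h⟩
    linarith
  constructor
  · rintro ⟨A, hA, u, hu, hu0, h1, h2⟩
    obtain ⟨c, hc⟩ := hall u hu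
    have hc0 : c ≠ 0 := by
      rintro rfl
      apply hu0; funext i; rw [hc i]; simp
    rcases lt_or_gt_of_ne hc0 with hneg | hpos
    · -- N ⊆ A, P ⊆ Aᶜ
      have e1 : N ⊆ A := by
        intro i hi
        by_contra hiA
        have := h2 i hiA
        rw [hc i] at this
        have hli := (Finset.mem_filter.1 hi).2
        nlinarith [mul_pos_of_neg_of_neg hneg hli]
      have e2 : P ⊆ Aᶜ := by
        intro i hi
        rw [Finset.mem_compl]
        intro hiA
        have := h1 i hiA
        rw [hc i] at this
        have hli := (Finset.mem_filter.1 hi).2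
        nlinarith [mul_neg_of_neg_of_pos hneg hli]
      have e1' := Finset.card_le_card e1
      have e2' := Finset.card_le_card e2
      rw [Finset.card_compl, Fintype.card_fin] at e2'
      omega
    · have e1 : P ⊆ A := by
        intro i hi
        by_contra hiA
        have := h2 i hiA
        rw [hc i] at this
        have hli := (Finset.mem_filter.1 hi).2
        nlinarith [mul_pos hpos hli]
      have e2 : N ⊆ Aᶜ := by
        intro i hi
        rw [Finset.mem_compl]
        intro hiA
        have := h1 i hiA
        rw [hc i] at this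
        have hli := (Finset.mem_filter.1 hi).2
        nlinarith [mul_neg_of_pos_of_neg hpos hli]
      have e1' := Finset.card_le_card e1
      have e2' := Finset.card_le_card e2
      have e3' := Finset.card_le_univ A
      rw [Finset.card_compl, Fintype.card_fin] at e2'
      rw [Fintype.card_fin] at e3'
      omega
  · rintro ⟨h1, h2⟩
    obtain ⟨A, hA1, hA2, hA3⟩ := Finset.exists_subsuperset_card_eq hPNc h1 (by omega)
    refine ⟨A, hA3, l, hl, hl0, ?_, ?_⟩
    · intro i hi
      have := hA2 hi
      rw [Finset.mem_compl, hN, Finset.mem_filter] at this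
      push Not at this
      exact this (Finset.mem_univ _)
    · intro i hi
      by_contra hcon
      exact hi (hA1 (Finset.mem_filter.2 ⟨Finset.mem_univ _, not_le.1 hcon⟩))

lemma P_pos {l : Fin m → ℝ} (hl : IsDep x l) (hl0 : l ≠ 0) :
    1 ≤ (univ.filter (fun i : Fin m => 0 < l i)).card := by
  classical
  rw [Nat.one_le_iff_ne_zero, Ne, Finset.card_eq_zero]
  intro h
  apply hl0
  rw [Finset.filter_eq_empty_iff] at h
  have h1 : ∀ i ∈ (univ : Finset (Fin m)), 0 ≤ - l i := fun i hi => by
    have := h hi; push Not at this; linarith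
  have h2 : ∑ i, - l i = 0 := by rw [Finset.sum_neg_distrib, hl.1, neg_zero]
  have h3 := (Finset.sum_eq_zero_iff_of_nonneg h1).1 h2
  funext i
  have := h3 i (Finset.mem_univ _)
  simp only [Pi.zero_apply]; linarith

theorem supp_nec (hx : Function.Injective x) (Z : Finset ℕ)
    (hZ : ∀ s, s ∈ Z ↔ (1 ≤ s ∧ s ≤ m / 2 ∧ ∃ A : Finset (Fin m), A.card = s ∧ RadA x A)) :
    IsSupp d m Z := by
  classical
  by_cases h0 : ∃ l, IsDep x l ∧ l ≠ 0
  swap
  · left
    refine ⟨?_, ?_⟩
    · by_contra hcon
      obtain ⟨l, hl, hl0, -⟩ := small_dep x (by omega)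
      exact h0 ⟨l, hl, hl0⟩
    · rw [Finset.eq_empty_iff_forall_notMem]
      intro s hs
      obtain ⟨-, -, A, -, l, hl, hl0, -⟩ := (hZ s).1 hs
      exact h0 ⟨l, hl, hl0⟩
  obtain ⟨l0, hl0, hl0ne⟩ := h0
  have hm3 := three_le hx hl0 hl0ne
  right
  by_cases h1 : ∀ u, IsDep x u → ∃ c : ℝ, ∀ i, u i = c * l0 i
  · left
    have hmd : m ≤ d + 2 := by
      by_contra hcon
      obtain ⟨u, hu, hind⟩ := second_dep (x := x) (by omega) hl0ne
      obtain ⟨c, hc⟩ := h1 u hu
      have := (hind c (-1) (by funext i; rw [hc i]; simp)).2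
      norm_num at this
    refine ⟨hm3, hmd, ?_⟩
    -- choose sign
    have key : ∀ l, IsDep x l → l ≠ 0 → (∀ u, IsDep x u → ∃ c : ℝ, ∀ i, u i = c * l i) →
        (univ.filter (fun i : Fin m => 0 < l i)).card ≤ (univ.filter (fun i : Fin m => l i < 0)).card →
        ∃ p q, 1 ≤ p ∧ p ≤ q ∧ q ≤ m / 2 ∧ Z = Icc p q := by
      intro l hl hlne hall hPN
      have hone := one_dim hl hlne hall hPN
      have hp := P_pos hl hlne
      set P := (univ.filter (fun i : Fin m => 0 < l i)) with hP
      set N := (univ.filter (fun i : Fin m => l i < 0)) with hN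
      have hsum : P.card + N.card ≤ m := by
        have hd : Disjoint P N := by
          rw [Finset.disjoint_left]
          intro i h1 h2
          have e1 := (Finset.mem_filter.1 h1).2
          have e2 := (Finset.mem_filter.1 h2).2
          linarith
        rw [← Finset.card_union_of_disjoint hd]
        have := Finset.card_le_univ (P ∪ N)
        rwa [Fintype.card_fin] at this
      refine ⟨P.card, min (m - N.card) (m / 2), hp, by omega, by omega, ?_⟩
      ext s
      rw [hZ s, mem_Icc]
      constructor
      · rintro ⟨a1, a2, a3⟩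
        have := (hone s a2).1 a3
        omega
      · rintro ⟨a1, a2⟩
        exact ⟨by omega, by omega, (hone s (by omega)).2 ⟨a1, by omega⟩⟩
    by_cases hc : (univ.filter (fun i : Fin m => 0 < l0 i)).card ≤ (univ.filter (fun i : Fin m => l0 i < 0)).card
    · exact key l0 hl0 hl0ne h1 hc
    · refine key (-l0) hl0.neg (neg_ne_zero.2 hl0ne) ?_ ?_
      · intro u hu
        obtain ⟨c, hc⟩ := h1 u hu
        exact ⟨-c, fun i => by rw [hc i]; simp⟩
      · have e1 : (univ.filter (fun i : Fin m => 0 < (-l0) i)) = (univ.filter (fun i : Fin m => l0 i < 0)) := by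
          apply Finset.filter_congr
          intro i _
          simp
        have e2 : (univ.filter (fun i : Fin m => (-l0) i < 0)) = (univ.filter (fun i : Fin m => 0 < l0 i)) := by
          apply Finset.filter_congr
          intro i _
          simp
        rw [e1, e2]; omega
  · -- two independent dependencies
    push Not at h1
    obtain ⟨u0, hu0, hu0c⟩ := h1
    -- for every nonzero dependency there is an independent one
    have hsecond : ∀ l, IsDep x l → l ≠ 0 →
        ∃ u, IsDep x u ∧ ∀ a b : ℝ, (fun i => a * l i + b * u i) = 0 → a = 0 ∧ b = 0 := by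
      intro l hl hlne
      by_cases hc : ∃ c : ℝ, ∀ i, u0 i = c * l i
      · -- then l0 works
        refine ⟨l0, hl0, ?_⟩
        intro a b hab
        obtain ⟨c, hc⟩ := hc
        have hb : b = 0 := by
          by_contra hb
          -- l0 = -(a/b) l
          have e : ∀ i, l0 i = -(a / b) * l i := by
            intro i
            have := congrFun hab i
            simp only [Pi.zero_apply] at this
            field_simp
            linarith
          have ha0 : a / b ≠ 0 := by
            intro h
            apply hl0ne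
            funext i
            rw [e i, h]; simp
          have ha1 : a ≠ 0 := by
            rintro rfl
            simp at ha0
          obtain ⟨i, hi⟩ := hu0c (-(c / (a / b)))
          apply hi
          rw [hc i, e i]
          field_simp
        refine ⟨?_, hb⟩
        by_contra ha
        apply hlne
        funext i
        have := congrFun hab i
        simp only [hb, zero_mul, add_zero, Pi.zero_apply] at this
        rcases mul_eq_zero.1 this with h | h
        · exact absurd h ha
        · exact h
      · push Not at hc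
        refine ⟨u0, hu0, ?_⟩
        intro a b hab
        have hb : b = 0 := by
          by_contra hb
          obtain ⟨i, hi⟩ := hc (-(a / b))
          apply hi
          have := congrFun hab i
          simp only [Pi.zero_apply] at this
          field_simp
          linarith
        refine ⟨?_, hb⟩
        by_contra ha
        apply hlne
        funext i
        have := congrFun hab i
        simp only [hb, zero_mul, add_zero, Pi.zero_apply] at this
        rcases mul_eq_zero.1 this with h | h
        · exact absurd h ha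
        · exact h
    have hwalk : ∀ A : Finset (Fin m), RadA x A → ∀ v, A.card ≤ v → v + A.card ≤ m →
        ∃ B : Finset (Fin m), B.card = v ∧ RadA x B := by
      rintro A ⟨l, hA⟩ v h1 h2
      obtain ⟨u, hu, hind⟩ := hsecond l hA.1 hA.2.1
      exact walk_through hA hu hind v h1 h2
    have hne : ∀ A : Finset (Fin m), RadA x A → 1 ≤ A.card ∧ A.card + 1 ≤ m := by
      rintro A ⟨l, hA⟩
      have := comp_to_hull hx A l hA
      have h1 := Finset.card_pos.2 this.1
      have h2 := Finset.card_pos.2 this.2.1
      rw [Finset.card_compl, Fintype.card_fin] at h2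
      omega
    -- nonempty
    have hfold : ∀ A : Finset (Fin m), RadA x A → min A.card (m - A.card) ∈ Z := by
      intro A hA
      have h1 := hne A hA
      rw [hZ]
      refine ⟨by omega, by omega, ?_⟩
      by_cases h : A.card ≤ m - A.card
      · exact ⟨A, by omega, hA⟩
      · obtain ⟨l, hl⟩ := hA
        exact ⟨Aᶜ, by rw [Finset.card_compl, Fintype.card_fin]; omega, -l, hl.compl⟩
    have hZne : Z.Nonempty := ⟨_, hfold _ ⟨l0, comp_pos hl0 hl0ne⟩⟩
    set p := Z.min' hZne with hp
    have hpZ : p ∈ Z := Z.min'_mem hZne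
    obtain ⟨hp1, hp2, A, hA, hAr⟩ := (hZ p).1 hpZ
    have hZeq : Z = Icc p (m / 2) := by
      ext s
      rw [mem_Icc]
      constructor
      · intro hs
        exact ⟨Z.min'_le s hs, ((hZ s).1 hs).2.1⟩
      · rintro ⟨h1, h2⟩
        rw [hZ]
        exact ⟨by omega, h2, hwalk A hAr s (by omega) (by omega)⟩
    by_cases hmd : m ≤ d + 2
    · left
      exact ⟨hm3, hmd, p, m / 2, hp1, hp2, le_rfl, hZeq⟩
    · right
      refine ⟨by omega, p, hp1, ?_, hZeq⟩
      obtain ⟨l, hl, hlne, hlz⟩ := small_dep x (by omega)
      obtain ⟨B, hB, hBr⟩ := small_part hl hlne hlz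
      have h3 := Z.min'_le _ (hfold B hBr)
      rw [← hp] at h3
      omega

end

end Pool.Agent.H54.Radon
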