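import Pool.Agent.H54.Radon.Gale

namespace Pool.Agent.H54.Radon

open Finset

/-- `l` is a nonzero affine dependency, nonnegative on `A` and nonpositive off `A`. -/
def Comp {m d : ℕ} (x : Fin m → Fin d → ℝ) (A : Finset (Fin m)) (l : Fin m → ℝ) : Prop :=
  IsDep x l ∧ l ≠ 0 ∧ (∀ i ∈ A, 0 ≤ l i) ∧ (∀ i ∉ A, l i ≤ 0)

def RadA {m d : ℕ} (x : Fin m → Fin d → ℝ) (A : Finset (Fin m)) : Prop := ∃ l, Comp x A l

section

variable {m d : ℕ} {x : Fin m → Fin d → ℝ}

lemma IsDep.comb {u w : Fin m → ℝ} (hu : IsDep x u)
    (hw : IsDep x w) (a b : ℝ) : IsDep x (fun i => a * u i + b * w i) := by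
  constructor
  · rw [Finset.sum_add_distrib, ← Finset.mul_sum, ← Finset.mul_sum, hu.1, hw.1]; simp
  · simp only [add_smul, mul_smul]
    rw [Finset.sum_add_distrib, ← Finset.smul_sum, ← Finset.smul_sum, hu.2, hw.2]; simp

lemma IsDep.neg {u : Fin m → ℝ} (hu : IsDep x u) : IsDep x (-u) := by
  constructor
  · simp [hu.1]
  · simp only [Pi.neg_apply, neg_smul]
    rw [Finset.sum_neg_distrib, hu.2, neg_zero]

lemma Comp.compl {A : Finset (Fin m)} {l : Fin m → ℝ} (h : Comp x A l) : Comp x Aᶜ (-l) := by
  refine ⟨h.1.neg, neg_ne_zero.2 h.2.1, ?_, ?_⟩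
  · intro i hi
    have := h.2.2.2 i (Finset.mem_compl.1 hi)
    simp only [Pi.neg_apply]; linarith
  · intro i hi
    have := h.2.2.1 i (by simpa using hi)
    simp only [Pi.neg_apply]; linarith

lemma comp_to_hull (hx : Function.Injective x) (A : Finset (Fin m)) (l : Fin m → ℝ)
    (h : Comp x A l) :
    A.Nonempty ∧ Aᶜ.Nonempty ∧ (convexHull ℝ ((A.map ⟨x, hx⟩ : Finset _) : Set (Fin d → ℝ)) ∩
      convexHull ℝ ((Aᶜ.map ⟨x, hx⟩ : Finset _) : Set (Fin d → ℝ))).Nonempty := by
  obtain ⟨hl, hl0, hA, hA'⟩ := h
  have h1 := hl.1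
  have h2 := hl.2
  rw [← Finset.sum_add_sum_compl A] at h1 h2
  have hpos : 0 < ∑ i ∈ A, l i := by
    have h0 : 0 ≤ ∑ i ∈ A, l i := Finset.sum_nonneg hA
    rcases h0.lt_or_eq with h | h
    · exact h
    · exfalso
      apply hl0
      have e1 : ∀ i ∈ A, l i = 0 := (Finset.sum_eq_zero_iff_of_nonneg hA).1 h.symm
      have e2 : ∑ i ∈ Aᶜ, (- l i) = 0 := by rw [Finset.sum_neg_distrib]; linarith
      have e3 : ∀ i ∈ Aᶜ, - l i = 0 := (Finset.sum_eq_zero_iff_of_nonneg (fun i hi => by
        have := hA' i (Finset.mem_compl.1 hi); linarith)).1 e2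
      funext i
      by_cases hi : i ∈ A
      · exact e1 i hi
      · have := e3 i (Finset.mem_compl.2 hi)
        simp only [Pi.zero_apply]; linarith
  have hne : A.Nonempty := by
    by_contra hcon
    rw [Finset.not_nonempty_iff_eq_empty] at hcon
    rw [hcon] at hpos; simp at hpos
  have hne' : Aᶜ.Nonempty := by
    by_contra hcon
    rw [Finset.not_nonempty_iff_eq_empty] at hcon
    rw [hcon, Finset.sum_empty, add_zero] at h1
    linarith
  refine ⟨hne, hne', (∑ i ∈ A, l i)⁻¹ • ∑ i ∈ A, l i • x i, ?_, ?_⟩
  · have := Finset.centerMass_mem_convexHull A (s := ((A.map ⟨x, hx⟩ : Finset _) : Set (Fin d → ℝ)))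
      (w := l) (z := x) hA hpos (fun i hi => by
        rw [Finset.mem_coe, Finset.mem_map]; exact ⟨i, hi, rfl⟩)
    exact this
  · have hpos' : 0 < ∑ i ∈ Aᶜ, (- l i) := by rw [Finset.sum_neg_distrib]; linarith
    have := Finset.centerMass_mem_convexHull Aᶜ
      (s := ((Aᶜ.map ⟨x, hx⟩ : Finset _) : Set (Fin d → ℝ)))
      (w := fun i => - l i) (z := x) (fun i hi => by
        have := hA' i (Finset.mem_compl.1 hi); linarith) hpos' (fun i hi => by
        rw [Finset.mem_coe, Finset.mem_map]; exact ⟨i, hi, rfl⟩)
    rw [Finset.centerMass] at this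
    have e1 : ∑ i ∈ Aᶜ, (- l i) = ∑ i ∈ A, l i := by rw [Finset.sum_neg_distrib]; linarith
    have e2 : ∑ i ∈ Aᶜ, (- l i) • x i = ∑ i ∈ A, l i • x i := by
      simp only [neg_smul]
      rw [Finset.sum_neg_distrib]
      rw [neg_eq_iff_add_eq_zero, add_comm]; exact h2
    rw [e1, e2] at this
    exact this

theorem radonCount_pos (hx : Function.Injective x) (s : ℕ) :
    0 < radonCount (univ.map ⟨x, hx⟩) s ↔ ∃ A : Finset (Fin m), A.card = s ∧ RadA x A := by
  classical
  set f : Fin m ↪ (Fin d → ℝ) := ⟨x, hx⟩ with hf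
  have hsub : {P : Sym2 (Finset (Fin d → ℝ)) | ∃ A B, P = s(A, B) ∧
      IsRadon (univ.map f) A B ∧ A.card = s} =
      (fun A : Finset (Fin m) => s(A.map f, Aᶜ.map f)) '' {A : Finset (Fin m) | A.card = s ∧ RadA x A} := by
    ext P
    constructor
    · rintro ⟨A, B, rfl, ⟨hA, hB, hdisj, hunion, hne⟩, hcard⟩
      have hAsub : A ⊆ univ.map f := by
        intro z hz
        have : z ∈ ((univ.map f : Finset _) : Set (Fin d → ℝ)) := by
          rw [← hunion]; exact Or.inl hz
        exact this
      obtain ⟨A', -, rfl⟩ := (Finset.subset_map_iff).1 hAsub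
      have hBeq : B = (A'ᶜ).map f := by
        ext z
        have hz : z ∈ ((univ.map f : Finset _) : Set (Fin d → ℝ)) ↔ z ∈ ((A'.map f : Finset _) : Set (Fin d → ℝ)) ∪ B := by
          rw [hunion]
        rw [Set.mem_union, Finset.mem_coe, Finset.mem_coe, Finset.mem_coe] at hz
        constructor
        · intro hzB
          have h1 := hz.2 (Or.inr hzB)
          rw [Finset.mem_map] at h1
          obtain ⟨i, -, rfl⟩ := h1
          rw [Finset.mem_map' f, Finset.mem_compl]
          intro hi
          exact Finset.disjoint_left.1 hdisj (by rw [Finset.mem_map' f]; exact hi) hzB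
        · intro hz2
          rw [Finset.mem_map] at hz2
          obtain ⟨i, hi, rfl⟩ := hz2
          rcases hz.1 (by simp) with h | h
          · rw [Finset.mem_map' f] at h
            exact absurd h (Finset.mem_compl.1 hi)
          · exact h
      subst hBeq
      rw [Finset.card_map] at hcard
      exact ⟨A', ⟨hcard, hull_to_dep hx A' hne⟩, rfl⟩
    · rintro ⟨A, ⟨hc, l, hl⟩, rfl⟩
      have hr := comp_to_hull hx A l hl
      refine ⟨_, _, rfl, ⟨by simpa using hr.1, by simpa using hr.2.1, ?_, ?_, hr.2.2⟩, ?_⟩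
      · rw [Finset.disjoint_map]; exact disjoint_compl_right
      · rw [← Finset.coe_union, ← Finset.map_union, Finset.union_compl]
      · rw [Finset.card_map]; exact hc
  rw [radonCount, hsub]
  rw [Set.ncard_pos ((Set.toFinite _).image _), Set.image_nonempty]
  rfl

/-- the walk along a segment of dependencies -/
lemma segment_walk (n : ℕ) : ∀ (A A' : Finset (Fin m)) (l l' : Fin m → ℝ),
    (symmDiff A A').card = n → Comp x A l → Comp x A' l' →
    (∀ s : ℝ, 0 ≤ s → s ≤ 1 → (fun i => (1 - s) * l i + s * l' i) ≠ 0) →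
    ∀ v, (A.card ≤ v ∧ v ≤ A'.card) ∨ (A'.card ≤ v ∧ v ≤ A.card) →
      ∃ B : Finset (Fin m), B.card = v ∧ RadA x B := by
  classical
  induction n with
  | zero =>
    intro A A' l l' hn hA hA' hseg v hv
    have : A = A' := by
      rw [Finset.card_eq_zero] at hn
      exact symmDiff_eq_bot.1 hn
    subst this
    exact ⟨A, by omega, l, hA⟩
  | succ n ih =>
    intro A A' l l' hn hA hA' hseg v hv
    by_cases hvA : v = A.card
    · exact ⟨A, hvA.symm, l, hA⟩
    -- choose the first coordinate to cross
    let T : Fin m → ℝ := fun i => l i / (l i - l' i)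
    have hne : (symmDiff A A').Nonempty := by
      rw [← Finset.card_pos]; omega
    obtain ⟨i, hi, hmin⟩ := Finset.exists_min_image (symmDiff A A') T hne
    have hT : ∀ j ∈ symmDiff A A', 0 ≤ T j ∧ T j ≤ 1 ∧
        ((j ∈ A → 0 ≤ l j ∧ l' j ≤ 0) ∧ (j ∉ A → l j ≤ 0 ∧ 0 ≤ l' j)) := by
      intro j hj
      rw [Finset.mem_symmDiff] at hj
      rcases hj with ⟨h1, h2⟩ | ⟨h1, h2⟩
      · have e1 := hA.2.2.1 j h1
        have e2 := hA'.2.2.2 j h2
        refine ⟨div_nonneg e1 (by linarith), ?_, ⟨fun _ => ⟨e1, e2⟩, fun h => absurd h1 h⟩⟩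
        rcases eq_or_lt_of_le (show 0 ≤ l j - l' j by linarith) with h | h
        · simp only [T]; rw [← h, div_zero]; norm_num
        · simp only [T]; rw [div_le_one h]; linarith
      · have e1 := hA.2.2.2 j h2
        have e2 := hA'.2.2.1 j h1
        refine ⟨div_nonneg_of_nonpos e1 (by linarith), ?_, ⟨fun h => absurd h h2, fun _ => ⟨e1, e2⟩⟩⟩
        rcases eq_or_lt_of_le (show l j - l' j ≤ 0 by linarith) with h | h
        · simp only [T]; rw [h, div_zero]; norm_num
        · simp only [T]; rw [div_le_one_of_neg h]; linarith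
    set s := T i with hs
    have hs0 := (hT i hi).1
    have hs1 := (hT i hi).2.1
    set l2 : Fin m → ℝ := fun j => (1 - s) * l j + s * l' j with hl2
    have hl2dep : IsDep x l2 := hA.1.comb hA'.1 _ _
    have hl2ne : l2 ≠ 0 := hseg s hs0 hs1
    have hTmul : ∀ j ∈ symmDiff A A', T j * (l j - l' j) = l j := by
      intro j hj
      by_cases h : l j - l' j = 0
      · have := (hT j hj).2.2
        by_cases hjA : j ∈ A
        · have := this.1 hjA
          have : l j = 0 := by linarith
          rw [h, this, mul_zero]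
        · have := this.2 hjA
          have : l j = 0 := by linarith
          rw [h, this, mul_zero]
      · simp only [T]; field_simp
    have hl2i : l2 i = 0 := by
      have := hTmul i hi
      simp only [hl2]
      rw [← hs] at this
      linarith
    have hcompA : ∀ j, (j ∈ A → 0 ≤ l2 j) ∧ (j ∉ A → l2 j ≤ 0) := by
      intro j
      by_cases hj : j ∈ symmDiff A A'
      · have h1 := hmin j hj
        have h2 := hTmul j hj
        have h3 := (hT j hj).2.2
        constructor
        · intro hjA
          have h4 := h3.1 hjA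
          have : l2 j = l j - s * (l j - l' j) := by simp only [hl2]; ring
          rw [this]
          nlinarith
        · intro hjA
          have h4 := h3.2 hjA
          have : l2 j = l j - s * (l j - l' j) := by simp only [hl2]; ring
          rw [this]
          nlinarith
      · rw [Finset.mem_symmDiff] at hj
        push Not at hj
        constructor
        · intro hjA
          have h1 := hA.2.2.1 j hjA
          have h2 := hA'.2.2.1 j (hj.1 hjA)
          simp only [hl2]
          have : 0 ≤ 1 - s := by linarith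
          positivity
        · intro hjA
          have h1 := hA.2.2.2 j hjA
          have h2 := hA'.2.2.2 j (fun h => hjA (hj.2 h))
          simp only [hl2]
          have : 0 ≤ 1 - s := by linarith
          nlinarith
    have hseg2 : ∀ r : ℝ, 0 ≤ r → r ≤ 1 → (fun i => (1 - r) * l2 i + r * l' i) ≠ 0 := by
      intro r hr0 hr1
      have := hseg (s + r - r * s) (by nlinarith) (by nlinarith)
      intro h0
      apply this
      rw [← h0]
      funext j
      simp only [hl2]; ring
    by_cases hiA : i ∈ A
    · have hiA' : i ∉ A' := by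
        rw [Finset.mem_symmDiff] at hi
        tauto
      have hc : (A.erase i).card + 1 = A.card := Finset.card_erase_add_one hiA
      refine ih (A.erase i) A' l2 l' ?_ ?_ hA' hseg2 v ?_
      · have : symmDiff (A.erase i) A' = (symmDiff A A').erase i := by
          ext j
          rw [Finset.mem_erase, Finset.mem_symmDiff, Finset.mem_symmDiff, Finset.mem_erase]
          by_cases hji : j = i
          · subst hji; tauto
          · tauto
        rw [this, Finset.card_erase_of_mem hi]; omega
      · refine ⟨hl2dep, hl2ne, ?_, ?_⟩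
        · intro j hj
          exact (hcompA j).1 (Finset.mem_erase.1 hj).2
        · intro j hj
          by_cases hji : j = i
          · rw [hji, hl2i]
          · exact (hcompA j).2 (fun h => hj (Finset.mem_erase.2 ⟨hji, h⟩))
      · omega
    · have hiA' : i ∈ A' := by
        rw [Finset.mem_symmDiff] at hi
        tauto
      have hc : (insert i A).card = A.card + 1 := Finset.card_insert_of_notMem hiA
      refine ih (insert i A) A' l2 l' ?_ ?_ hA' hseg2 v ?_
      · have : symmDiff (insert i A) A' = (symmDiff A A').erase i := by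
          ext j
          rw [Finset.mem_erase, Finset.mem_symmDiff, Finset.mem_symmDiff, Finset.mem_insert]
          by_cases hji : j = i
          · subst hji; tauto
          · tauto
        rw [this, Finset.card_erase_of_mem hi]; omega
      · refine ⟨hl2dep, hl2ne, ?_, ?_⟩
        · intro j hj
          rcases Finset.mem_insert.1 hj with h | h
          · rw [h, hl2i]
          · exact (hcompA j).1 h
        · intro j hj
          exact (hcompA j).2 (fun h => hj (Finset.mem_insert.2 (Or.inr h)))
      · omega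

/-- with two independent dependencies all sizes between `|A|` and `m - |A|` occur -/
lemma walk_through {A : Finset (Fin m)} {l u : Fin m → ℝ} (hA : Comp x A l) (hu : IsDep x u)
    (hind : ∀ a b : ℝ, (fun i => a * l i + b * u i) = 0 → a = 0 ∧ b = 0) (v : ℕ)
    (h1 : A.card ≤ v) (h2 : v + A.card ≤ m) : ∃ B : Finset (Fin m), B.card = v ∧ RadA x B := by
  classical
  set U : Finset (Fin m) := univ.filter (fun i => 0 ≤ u i) with hU
  have hu0 : u ≠ 0 := by
    intro h
    have := (hind 0 1 (by funext i; simp [h])).2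
    norm_num at this
  have hCU : Comp x U u := by
    refine ⟨hu, hu0, ?_, ?_⟩
    · intro i hi; exact (Finset.mem_filter.1 hi).2
    · intro i hi
      rw [hU, Finset.mem_filter] at hi
      push Not at hi
      exact (hi (Finset.mem_univ _)).le
  have hCA := hA.compl
  have hcard : Aᶜ.card = m - A.card := by rw [Finset.card_compl, Fintype.card_fin]
  by_cases hv : v ≤ U.card
  · refine segment_walk _ A U l u rfl hA hCU ?_ v (Or.inl ⟨h1, hv⟩)
    intro s hs0 hs1 h
    have := hind (1 - s) s h
    linarith [this.1, this.2]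
  · refine segment_walk _ U Aᶜ u (-l) rfl hCU hCA ?_ v (Or.inl ⟨by omega, by omega⟩)
    intro s hs0 hs1 h
    have h' : (fun i => (-s) * l i + (1 - s) * u i) = 0 := by
      rw [← h]; funext i; simp only [Pi.neg_apply]; ring
    have := hind (-s) (1 - s) h'
    linarith [this.1, this.2]

end

end Pool.Agent.H54.Radon
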