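import Pool.Agent.H54.Radon.Supp

namespace Pool.Agent.H54.Radon

open Finset

section

variable {m d p n : ℕ}

/-! ### simplex -/

noncomputable def simp0 (m d : ℕ) : Fin m → Fin d → ℝ :=
  fun i k => if (i : ℕ) = (k : ℕ) + 1 then 1 else 0

lemma simp0_inj (hm : m ≤ d + 1) : Function.Injective (simp0 m d) := by
  have key : ∀ i j : Fin m, 0 < (i : ℕ) → simp0 m d i = simp0 m d j → i = j := by
    intro i j hi h
    have h1 := congrFun h ⟨(i : ℕ) - 1, by have := i.2; omega⟩
    simp only [simp0] at h1
    have e : (i : ℕ) = (i : ℕ) - 1 + 1 := by omega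
    rw [if_pos e] at h1
    by_contra hne
    have : ¬ (j : ℕ) = (i : ℕ) - 1 + 1 := fun h => hne (Fin.ext (by omega))
    rw [if_neg this] at h1
    norm_num at h1
  intro i j h
  rcases Nat.eq_zero_or_pos (i : ℕ) with hi | hi
  · rcases Nat.eq_zero_or_pos (j : ℕ) with hj | hj
    · exact Fin.ext (by omega)
    · exact (key j i hj h.symm).symm
  · exact key i j hi h

lemma simp0_dep (hm : m ≤ d + 1) {l : Fin m → ℝ} (hl : IsDep (simp0 m d) l) : l = 0 := by
  have key : ∀ i : Fin m, 0 < (i : ℕ) → l i = 0 := by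
    intro i hi
    have h1 := congrFun hl.2 ⟨(i : ℕ) - 1, by have := i.2; omega⟩
    simp only [Finset.sum_apply, Pi.smul_apply, smul_eq_mul, Pi.zero_apply, simp0] at h1
    rw [Finset.sum_eq_single i] at h1
    · rw [if_pos (by omega), mul_one] at h1; exact h1
    · intro j _ hj
      rw [if_neg (fun h => hj (Fin.ext (by omega))), mul_zero]
    · intro h; exact absurd (Finset.mem_univ _) h
  funext i
  rcases Nat.eq_zero_or_pos (i : ℕ) with hi | hi
  · have h1 := hl.1
    rw [Finset.sum_eq_single i] at h1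
    · exact h1
    · intro j _ hj
      exact key j (by
        by_contra hcon
        exact hj (Fin.ext (by omega)))
    · intro h; exact absurd (Finset.mem_univ _) h
  · exact key i hi

/-! ### one circuit -/

noncomputable def lam (m p n : ℕ) (i : ℕ) : ℝ :=
  if i < p then (n : ℝ) / p else if i + 1 < p + n ∨ i + 1 = m then -1 else 0

noncomputable def circ (m d p n : ℕ) : Fin m → Fin d → ℝ :=
  fun i k => if (i : ℕ) + 1 = m then (if (k : ℕ) + 2 < m then lam m p n ((k : ℕ) + 1) else 0)
    else (if (i : ℕ) = (k : ℕ) + 1 then 1 else 0)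

lemma lam_P (hp : 1 ≤ p) (hn : 1 ≤ n) (hpn : p + n ≤ m) :
    (univ.filter (fun i : Fin m => 0 < lam m p n i)).card = p := by
  have : (univ.filter (fun i : Fin m => 0 < lam m p n i)) = univ.filter (fun i : Fin m => (i : ℕ) < p) := by
    apply Finset.filter_congr
    intro i _
    unfold lam
    have hp' : (0 : ℝ) < p := by exact_mod_cast hp
    have hn' : (0 : ℝ) < n := by exact_mod_cast hn
    split_ifs with h1 h2
    · simp only [h1, iff_true]; positivity
    · simp only [h1, iff_false]; norm_num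
    · simp [h1]
  rw [this]
  have e : (univ.filter (fun i : Fin m => (i : ℕ) < p)) = (univ : Finset (Fin p)).map (Fin.castLEEmb (show p ≤ m by omega)) := by
    ext i
    rw [Finset.mem_filter, Finset.mem_map]
    constructor
    · rintro ⟨-, h⟩; exact ⟨⟨i, h⟩, Finset.mem_univ _, Fin.ext rfl⟩
    · rintro ⟨j, -, rfl⟩; exact ⟨Finset.mem_univ _, j.2⟩
  rw [e, Finset.card_map, Finset.card_univ, Fintype.card_fin]

lemma lam_PN (hp : 1 ≤ p) (hn : 1 ≤ n) (hpn : p + n ≤ m) :
    (univ.filter (fun i : Fin m => lam m p n i < 0)).card = n := by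
  have : (univ.filter (fun i : Fin m => lam m p n i < 0)) =
      (univ.filter (fun i : Fin m => p ≤ (i : ℕ) ∧ (i : ℕ) + 1 < p + n)) ∪ {⟨m - 1, by omega⟩} := by
    ext i
    rw [Finset.mem_filter, Finset.mem_union, Finset.mem_filter, Finset.mem_singleton]
    have hp' : (0 : ℝ) < p := by exact_mod_cast hp
    have hn' : (0 : ℝ) < n := by exact_mod_cast hn
    have hi := i.2
    have e : i = ⟨m - 1, by omega⟩ ↔ (i : ℕ) + 1 = m := by
      rw [Fin.ext_iff]; simp only; omega
    rw [e]
    simp only [Finset.mem_univ, true_and]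
    unfold lam
    split_ifs with h1 h2
    · constructor
      · intro h; exfalso
        have : (0 : ℝ) < n / p := by positivity
        linarith
      · rintro (h | h) <;> omega
    · constructor
      · intro _; omega
      · intro _; norm_num
    · constructor
      · intro h; exact absurd h (lt_irrefl _)
      · intro h; exfalso; apply h2; omega
  rw [this, Finset.card_union_of_disjoint]
  · rw [Finset.card_singleton]
    have e : (univ.filter (fun i : Fin m => p ≤ (i : ℕ) ∧ (i : ℕ) + 1 < p + n)).card = (Finset.Ico p (p + n - 1)).card := by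
      apply Finset.card_bij (fun (i : Fin m) _ => (i : ℕ))
      · intro i hi
        have := (Finset.mem_filter.1 hi).2
        rw [Finset.mem_Ico]; omega
      · intro i _ j _ h; exact Fin.ext h
      · intro k hk
        rw [Finset.mem_Ico] at hk
        exact ⟨⟨k, by omega⟩, Finset.mem_filter.2 ⟨Finset.mem_univ _, by simp only; omega⟩, rfl⟩
    rw [e, Nat.card_Ico]; omega
  · rw [Finset.disjoint_singleton_right, Finset.mem_filter]
    rintro ⟨-, h1, h2⟩
    simp only at h1 h2
    omega

lemma lam_sum (hp : 1 ≤ p) (hn : 1 ≤ n) (hpn : p + n ≤ m) : ∑ i : Fin m, lam m p n i = 0 := by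
  classical
  have hp' : (0 : ℝ) < p := by exact_mod_cast hp
  have hn' : (0 : ℝ) < n := by exact_mod_cast hn
  have e : ∀ i : Fin m, lam m p n i =
      (if 0 < lam m p n i then (n : ℝ) / p else 0) - (if lam m p n i < 0 then (1 : ℝ) else 0) := by
    intro i
    have h1 : (0 : ℝ) < n / p := by positivity
    unfold lam
    split_ifs <;> linarith
  rw [Finset.sum_congr rfl (fun i _ => e i), Finset.sum_sub_distrib, ← Finset.sum_filter,
    ← Finset.sum_filter, Finset.sum_const, Finset.sum_const, lam_P hp hn hpn, lam_PN hp hn hpn]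
  simp only [nsmul_eq_mul]
  field_simp
  ring

lemma circ_dep (hp : 1 ≤ p) (hn : 1 ≤ n) (hpn : p + n ≤ m) (hm : m ≤ d + 2) (hm2 : 2 ≤ m)
    (l : Fin m → ℝ) : IsDep (circ m d p n) l ↔ ∃ c : ℝ, ∀ i : Fin m, l i = c * lam m p n i := by
  have hlast : lam m p n ((m : ℕ) - 1) = -1 := by
    unfold lam
    rw [if_neg (by omega), if_pos (by omega)]
  set e : Fin m := ⟨m - 1, by omega⟩ with he
  -- coordinate identity
  have hcoord : ∀ (l : Fin m → ℝ) (k : Fin d), (∑ i, l i • circ m d p n i) k =
      l e * (if (k : ℕ) + 2 < m then lam m p n ((k : ℕ) + 1) else 0) +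
      (if h : (k : ℕ) + 2 < m then l ⟨(k : ℕ) + 1, by omega⟩ else 0) := by
    intro l k
    simp only [Finset.sum_apply, Pi.smul_apply, smul_eq_mul]
    rw [← Finset.add_sum_erase _ _ (Finset.mem_univ e)]
    congr 1
    · simp only [circ, he]
      rw [if_pos (by omega)]
    · have h1 : ∀ i ∈ univ.erase e, l i * circ m d p n i k = if (i : ℕ) = (k : ℕ) + 1 then l i else 0 := by
        intro i hi
        have hie : ¬ ((i : ℕ) + 1 = m) := fun h => (Finset.mem_erase.1 hi).1 (Fin.ext (by simp only [he]; omega))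
        simp only [circ]
        rw [if_neg hie]
        split_ifs <;> simp
      rw [Finset.sum_congr rfl h1]
      split_ifs with hk
      · rw [Finset.sum_eq_single (⟨(k : ℕ) + 1, by omega⟩ : Fin m)]
        · simp
        · intro j _ hj
          rw [if_neg (fun h => hj (Fin.ext h))]
        · intro h
          exfalso; apply h
          rw [Finset.mem_erase]
          refine ⟨?_, Finset.mem_univ _⟩
          intro h
          have := congrArg Fin.val h
          simp only [he] at this
          omega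
      · apply Finset.sum_eq_zero
        intro i hi
        have hie : ¬ ((i : ℕ) + 1 = m) := fun h => (Finset.mem_erase.1 hi).1 (Fin.ext (by simp only [he]; omega))
        have := i.2
        rw [if_neg (by omega)]
  constructor
  · intro hl
    refine ⟨- l e, ?_⟩
    have hne0 : ∀ i : Fin m, 0 < (i : ℕ) → l i + l e * lam m p n i = 0 := by
      intro i hi
      by_cases hie : (i : ℕ) + 1 = m
      · have h1 : i = e := Fin.ext (by simp only [he]; omega)
        have h2 : (i : ℕ) = m - 1 := by omega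
        rw [h2, hlast, h1]; ring
      · have hi2 := i.2
        have h1 := congrFun hl.2 ⟨(i : ℕ) - 1, by omega⟩
        rw [hcoord] at h1
        simp only [Pi.zero_apply] at h1
        have h2 : (i : ℕ) - 1 + 2 < m := by omega
        rw [if_pos h2, dif_pos h2] at h1
        have h3 : (i : ℕ) - 1 + 1 = i := by omega
        have h4 : (⟨(i : ℕ) - 1 + 1, by omega⟩ : Fin m) = i := Fin.ext h3
        rw [h4, h3] at h1
        linarith
    have h0 : l ⟨0, by omega⟩ + l e * lam m p n 0 = 0 := by
      have h1 : ∑ i : Fin m, (l i + l e * lam m p n i) = 0 := by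
        rw [Finset.sum_add_distrib, hl.1, ← Finset.mul_sum, lam_sum hp hn hpn]; ring
      rw [Finset.sum_eq_single (⟨0, by omega⟩ : Fin m)] at h1
      · exact h1
      · intro j _ hj
        exact hne0 j (by
          by_contra hcon
          exact hj (Fin.ext (by simp only; omega)))
      · intro h; exact absurd (Finset.mem_univ _) h
    intro i
    rcases Nat.eq_zero_or_pos (i : ℕ) with hi | hi
    · have h1 : i = ⟨0, by omega⟩ := Fin.ext hi
      rw [h1]
      simp only
      linarith
    · have := hne0 i hi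
      linarith
  · rintro ⟨c, hc⟩
    refine ⟨?_, ?_⟩
    · rw [Finset.sum_congr rfl (fun i _ => hc i), ← Finset.mul_sum, lam_sum hp hn hpn, mul_zero]
    · funext k
      rw [hcoord, Pi.zero_apply, hc e]
      have h1 : ((e : Fin m) : ℕ) = m - 1 := rfl
      rw [h1, hlast]
      split_ifs with hk
      · rw [hc]; simp only; ring
      · ring

lemma circ_inj (hp : 1 ≤ p) (hn : 2 ≤ n) (hpn : p + n ≤ m) (hm : m ≤ d + 2) :
    Function.Injective (circ m d p n) := by
  classical
  intro i j hij
  by_contra hne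
  have hdep : IsDep (circ m d p n) (Pi.single i 1 - Pi.single j 1) := by
    constructor
    · simp
    · simp [sub_smul, Finset.sum_sub_distrib, Pi.single_apply, ite_smul, hij]
  obtain ⟨c, hc⟩ := (circ_dep hp (by omega) hpn hm (by omega) _).1 hdep
  -- there is a third index with lam ≠ 0
  have hP := lam_P hp (show 1 ≤ n by omega) hpn
  have hN := lam_PN hp (show 1 ≤ n by omega) hpn
  obtain ⟨k, hk, hk0⟩ : ∃ k : Fin m, k ∉ ({i, j} : Finset (Fin m)) ∧ lam m p n k ≠ 0 := by
    by_contra hcon
    push Not at hcon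
    have hsub : (univ.filter (fun i : Fin m => 0 < lam m p n i)) ∪
        (univ.filter (fun i : Fin m => lam m p n i < 0)) ⊆ {i, j} := by
      intro k hk
      by_contra hkk
      have := hcon k hkk
      rw [Finset.mem_union, Finset.mem_filter, Finset.mem_filter, this] at hk
      simp at hk
    have h1 := Finset.card_le_card hsub
    rw [Finset.card_union_of_disjoint, hP, hN] at h1
    · have := Finset.card_le_two (a := i) (b := j)
      omega
    · rw [Finset.disjoint_left]
      intro k h1 h2
      have e1 := (Finset.mem_filter.1 h1).2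
      have e2 := (Finset.mem_filter.1 h2).2
      linarith
  simp only [Finset.mem_insert, Finset.mem_singleton, not_or] at hk
  have h1 := hc k
  simp only [Pi.sub_apply] at h1
  rw [Pi.single_eq_of_ne hk.1, Pi.single_eq_of_ne hk.2, sub_zero] at h1
  have hc0 : c = 0 := by
    rcases mul_eq_zero.1 h1.symm with h | h
    · exact h
    · exact absurd h hk0
  have h2 := hc i
  simp only [Pi.sub_apply] at h2
  rw [Pi.single_eq_same, Pi.single_eq_of_ne hne, hc0] at h2
  norm_num at h2

/-! ### moment curve -/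

noncomputable def mom (m d e : ℕ) : Fin m → Fin d → ℝ :=
  fun i k => if (k : ℕ) < e then ((i : ℕ) + 1 : ℝ) ^ ((k : ℕ) + 1) else 0

lemma mom_inj {e : ℕ} (he : 1 ≤ e) (hed : e ≤ d) : Function.Injective (mom m d e) := by
  intro i j h
  have h1 := congrFun h ⟨0, by omega⟩
  simp only [mom] at h1
  rw [if_pos (by omega), if_pos (by omega)] at h1
  simp only [zero_add, pow_one] at h1
  have : ((i : ℕ) : ℝ) = (j : ℕ) := by linarith
  exact Fin.ext (by exact_mod_cast this)

lemma mom_dep_of {e : ℕ} {l : Fin m → ℝ}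
    (h : IsDep (fun (i : Fin m) (k : Fin e) => ((i : ℕ) + 1 : ℝ) ^ ((k : ℕ) + 1)) l) :
    IsDep (mom m d e) l := by
  refine ⟨h.1, ?_⟩
  funext k
  simp only [Finset.sum_apply, Pi.smul_apply, smul_eq_mul, Pi.zero_apply, mom]
  by_cases hk : (k : ℕ) < e
  · have := congrFun h.2 ⟨k, hk⟩
    simp only [Finset.sum_apply, Pi.smul_apply, smul_eq_mul, Pi.zero_apply] at this
    simp only [hk, if_true]
    exact this
  · simp [hk]

lemma mom_poly {e : ℕ} (hed : e ≤ d) {l : Fin m → ℝ} (h : IsDep (mom m d e) l)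
    (q : Polynomial ℝ) (hq : q.natDegree ≤ e) : ∑ i : Fin m, l i * q.eval ((i : ℕ) + 1 : ℝ) = 0 := by
  have e1 : ∀ z : ℝ, q.eval z = ∑ k ∈ range (e + 1), q.coeff k * z ^ k := by
    intro z
    exact Polynomial.eval_eq_sum_range' (by omega) z
  simp only [e1, Finset.mul_sum]
  rw [Finset.sum_comm]
  apply Finset.sum_eq_zero
  intro k hk
  rw [mem_range] at hk
  have e3 : ∑ i : Fin m, l i * (q.coeff k * ((i : ℕ) + 1 : ℝ) ^ k) =
      q.coeff k * ∑ i : Fin m, l i * ((i : ℕ) + 1 : ℝ) ^ k := by
    rw [Finset.mul_sum]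
    exact Finset.sum_congr rfl (fun i _ => by ring)
  rw [e3]
  rcases Nat.eq_zero_or_pos k with h0 | h0
  · subst h0
    simp only [pow_zero, mul_one, h.1, mul_zero]
  · have := congrFun h.2 ⟨k - 1, by omega⟩
    simp only [Finset.sum_apply, Pi.smul_apply, smul_eq_mul, Pi.zero_apply, mom] at this
    have hk1 : k - 1 < e := by omega
    have hk2 : k - 1 + 1 = k := by omega
    simp only [hk1, if_true, hk2] at this
    rw [this, mul_zero]

lemma mom_large {e : ℕ} (hed : e ≤ d) {A : Finset (Fin m)} (hA : 2 * A.card ≤ e)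
    (h : RadA (mom m d e) A) : False := by
  obtain ⟨l, hl, hl0, h1, h2⟩ := h
  set q : Polynomial ℝ := ∏ i ∈ A, (Polynomial.X - Polynomial.C ((i : ℕ) + 1 : ℝ)) ^ 2 with hq
  have hqd : q.natDegree ≤ e := by
    rw [hq]
    refine (Polynomial.natDegree_prod_le _ _).trans ?_
    have : ∀ i ∈ A, ((Polynomial.X - Polynomial.C ((i : ℕ) + 1 : ℝ)) ^ 2).natDegree ≤ 2 := by
      intro i _
      refine Polynomial.natDegree_pow_le.trans ?_
      rw [Polynomial.natDegree_X_sub_C]
    have := Finset.sum_le_card_nsmul A _ 2 this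
    simp only [smul_eq_mul] at this
    omega
  have hev : ∀ z : ℝ, q.eval z = ∏ i ∈ A, (z - ((i : ℕ) + 1 : ℝ)) ^ 2 := by
    intro z
    simp [hq, Polynomial.eval_prod]
  have hsum := mom_poly hed hl q hqd
  have hnonpos : ∀ i ∈ (univ : Finset (Fin m)), 0 ≤ - (l i * q.eval ((i : ℕ) + 1 : ℝ)) := by
    intro i _
    by_cases hi : i ∈ A
    · have : q.eval ((i : ℕ) + 1 : ℝ) = 0 := by
        rw [hev]; exact Finset.prod_eq_zero hi (by ring)
      rw [this]; simp
    · have h3 := h2 i hi
      have h4 : 0 ≤ q.eval ((i : ℕ) + 1 : ℝ) := by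
        rw [hev]; exact Finset.prod_nonneg (fun _ _ => sq_nonneg _)
      nlinarith
  have hsum' : ∑ i : Fin m, - (l i * q.eval ((i : ℕ) + 1 : ℝ)) = 0 := by
    rw [Finset.sum_neg_distrib, hsum, neg_zero]
  have hz := (Finset.sum_eq_zero_iff_of_nonneg hnonpos).1 hsum'
  have hoff : ∀ i ∉ A, l i = 0 := by
    intro i hi
    have h3 := hz i (Finset.mem_univ _)
    have h4 : q.eval ((i : ℕ) + 1 : ℝ) ≠ 0 := by
      rw [hev, Finset.prod_ne_zero_iff]
      intro j hj
      have : (((i : ℕ) : ℝ) + 1 - ((j : ℕ) + 1)) ≠ 0 := by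
        intro h0
        have h5 : ((i : ℕ) : ℝ) = (j : ℕ) := by linarith
        have h6 : (i : ℕ) = j := by exact_mod_cast h5
        exact hi ((Fin.ext h6 : i = j) ▸ hj)
      exact pow_ne_zero _ this
    rcases mul_eq_zero.1 (neg_eq_zero.1 h3) with h | h
    · exact h
    · exact absurd h h4
  apply hl0
  have hall : ∀ i ∈ (univ : Finset (Fin m)), 0 ≤ l i := by
    intro i _
    by_cases hi : i ∈ A
    · exact h1 i hi
    · rw [hoff i hi]
  have := (Finset.sum_eq_zero_iff_of_nonneg hall).1 hl.1
  funext i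
  exact this i (Finset.mem_univ _)

theorem supp_suff (hd : 1 ≤ d) {Z : Finset ℕ} (h : IsSupp d m Z) :
    ∃ (x : Fin m → Fin d → ℝ), Function.Injective x ∧
      ∀ s, s ∈ Z ↔ (1 ≤ s ∧ s ≤ m / 2 ∧ ∃ A : Finset (Fin m), A.card = s ∧ RadA x A) := by
  classical
  rcases h with ⟨hm, rfl⟩ | ⟨hm3, hm, p, q, hp, hpq, hq, rfl⟩ | ⟨hm, p, hp, hpd, rfl⟩
  · refine ⟨simp0 m d, simp0_inj hm, fun s => ?_⟩
    constructor
    · intro h; exact absurd h (Finset.notMem_empty s)
    · rintro ⟨-, -, A, -, l, hl, hl0, -⟩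
      exact absurd (simp0_dep hm hl) hl0
  · have hn : 2 ≤ m - q := by omega
    have hpn : p + (m - q) ≤ m := by omega
    have hinj := circ_inj (d := d) hp hn hpn hm
    refine ⟨circ m d p (m - q), hinj, fun s => ?_⟩
    have hdep := circ_dep (d := d) hp (show 1 ≤ m - q by omega) hpn hm (by omega)
    have hl : IsDep (circ m d p (m - q)) (fun i : Fin m => lam m p (m - q) i) :=
      (hdep _).2 ⟨1, fun i => by rw [one_mul]⟩
    have hP := lam_P hp (show 1 ≤ m - q by omega) hpn
    have hN := lam_PN hp (show 1 ≤ m - q by omega) hpn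
    have hl0 : (fun i : Fin m => lam m p (m - q) i) ≠ 0 := by
      intro h
      have : (univ.filter (fun i : Fin m => 0 < lam m p (m - q) i)) = ∅ := by
        rw [Finset.filter_eq_empty_iff]
        intro i _
        have := congrFun h i
        simp only [Pi.zero_apply] at this
        rw [this]; exact lt_irrefl _
      rw [this] at hP
      simp at hP
      omega
    have hone := one_dim hl hl0 (fun u hu => (hdep u).1 hu) (by rw [hP, hN]; omega)
    rw [hP, hN] at hone
    rw [mem_Icc]
    constructor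
    · rintro ⟨h1, h2⟩
      exact ⟨by omega, by omega, (hone s (by omega)).2 ⟨h1, by omega⟩⟩
    · rintro ⟨h1, h2, h3⟩
      have := (hone s h2).1 h3
      omega
  · -- moment curve
    obtain ⟨e, he1, hed, he2, he3⟩ : ∃ e, 1 ≤ e ∧ e ≤ d ∧ e + 2 < 2 * p + 2 ∧ 2 * (p - 1) ≤ e := by
      rcases Nat.lt_or_ge p 2 with h | h
      · exact ⟨1, le_rfl, hd, by omega, by omega⟩
      · exact ⟨2 * p - 2, by omega, by omega, by omega, by omega⟩
    have hinj := mom_inj (m := m) he1 hed
    refine ⟨mom m d e, hinj, fun s => ?_⟩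
    obtain ⟨l, hl, hl0, hlz⟩ := small_dep (m := m) (e := e)
      (fun (i : Fin m) (k : Fin e) => ((i : ℕ) + 1 : ℝ) ^ ((k : ℕ) + 1)) (by omega)
    obtain ⟨A, hA, hAr⟩ := small_part (x := mom m d e) (mom_dep_of hl) hl0 hlz
    have hlow : ∀ B : Finset (Fin m), RadA (mom m d e) B → p ≤ B.card := by
      intro B hB
      by_contra hcon
      exact mom_large hed (by omega) hB
    have hAp : A.card = p := by
      have := hlow A hAr
      omega
    rw [mem_Icc]
    constructor
    · rintro ⟨h1, h2⟩
      refine ⟨by omega, h2, ?_⟩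
      obtain ⟨l', hl'⟩ := hAr
      obtain ⟨u, hu, hind⟩ := second_dep (x := mom m d e) hm hl'.2.1
      exact walk_through hl' hu hind s (by omega) (by omega)
    · rintro ⟨h1, h2, B, hB, hBr⟩
      exact ⟨by have := hlow B hBr; omega, h2⟩

theorem supp_main (hd : 1 ≤ d) (Z : Finset ℕ) :
    (∃ S : Finset (Fin d → ℝ), S.card = m ∧
      ∀ s, s ∈ Z ↔ (1 ≤ s ∧ s ≤ m / 2 ∧ 0 < radonCount S s)) ↔ IsSupp d m Z := by
  constructor
  · rintro ⟨S, hS, hZ⟩
    let e := S.equivFinOfCardEq hS
    let x : Fin m → Fin d → ℝ := fun i => (e.symm i : Fin d → ℝ)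
    have hx : Function.Injective x := fun i j h => e.symm.injective (Subtype.ext h)
    have hSx : univ.map ⟨x, hx⟩ = S := by
      ext z
      simp only [Finset.mem_map, Finset.mem_univ, true_and, Function.Embedding.coeFn_mk]
      constructor
      · rintro ⟨i, rfl⟩; exact (e.symm i).2
      · intro hz; exact ⟨e ⟨z, hz⟩, by simp [x]⟩
    refine supp_nec hx Z (fun s => ?_)
    rw [hZ s, ← hSx, radonCount_pos hx]
  · intro h
    obtain ⟨x, hx, hZ⟩ := supp_suff hd h
    refine ⟨univ.map ⟨x, hx⟩, by simp, fun s => ?_⟩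
    rw [hZ s, radonCount_pos hx]

end

end Pool.Agent.H54.Radon
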