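import Pool.Agent.H54.Radon.Defs

namespace Pool.Agent.H54.Radon

open Finset

/-- visits of the folded walk -/
def vis (m : ℕ) (p : ℕ → ℕ) (s : ℕ) : ℕ := #{j ∈ range m | p j = s ∨ p j + s = m}

section nec

variable {m : ℕ} {p : ℕ → ℕ}

/-- inward moves from level `s` -/
def U (m : ℕ) (p : ℕ → ℕ) (s : ℕ) : ℕ :=
  #{j ∈ range m | (p j = s ∧ p (j+1) = s + 1) ∨ (p j + s = m ∧ p (j+1) + 1 = p j)}

/-- outward moves from level `s+1` -/
def D (m : ℕ) (p : ℕ → ℕ) (s : ℕ) : ℕ :=
  #{j ∈ range m | (p j = s + 1 ∧ p (j+1) = s) ∨ (p j + s + 1 = m ∧ p (j+1) = p j + 1)}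

lemma U_eq_D (hstep : ∀ j < m, p (j + 1) = p j + 1 ∨ p j = p (j + 1) + 1)
    (hend : p m + p 0 = m) (s : ℕ) (hs : 2 * s < m) : U m p s = D m p s := by
  have hU : (U m p s : ℤ) = ∑ j ∈ range m,
      (if (p j = s ∧ p (j+1) = s + 1) ∨ (p j + s = m ∧ p (j+1) + 1 = p j) then (1:ℤ) else 0) := by
    rw [U, card_filter]; push_cast; rfl
  have hD : (D m p s : ℤ) = ∑ j ∈ range m,
      (if (p j = s + 1 ∧ p (j+1) = s) ∨ (p j + s + 1 = m ∧ p (j+1) = p j + 1) then (1:ℤ) else 0) := by
    rw [D, card_filter]; push_cast; rfl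
  have key : (D m p s : ℤ) - U m p s = ∑ j ∈ range m,
      (((if p (j+1) ≤ s ∨ m ≤ p (j+1) + s then (1:ℤ) else 0)) -
        (if p j ≤ s ∨ m ≤ p j + s then (1:ℤ) else 0)) := by
    rw [hU, hD, ← Finset.sum_sub_distrib]
    apply Finset.sum_congr rfl
    intro j hj
    have hj' := mem_range.1 hj
    have h1 := hstep j hj'
    split_ifs <;> omega
  rw [Finset.sum_range_sub (fun j => (if p j ≤ s ∨ m ≤ p j + s then (1:ℤ) else 0))] at key
  have : (if p m ≤ s ∨ m ≤ p m + s then (1:ℤ) else 0) - (if p 0 ≤ s ∨ m ≤ p 0 + s then (1:ℤ) else 0) = 0 := by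
    split_ifs <;> omega
  omega

lemma vis_eq (hstep : ∀ j < m, p (j + 1) = p j + 1 ∨ p j = p (j + 1) + 1) (s : ℕ)
    (hs : 2 * (s + 1) < m) : vis m p (s + 1) = U m p (s + 1) + D m p s := by
  unfold vis U D
  rw [← Finset.card_union_of_disjoint]
  · congr 1
    ext j
    simp only [mem_filter, mem_union, mem_range]
    constructor
    · rintro ⟨hj, h⟩
      have := hstep j hj
      omega
    · rintro (⟨hj, h⟩ | ⟨hj, h⟩)
      · omega
      · omega
  · rw [Finset.disjoint_left]
    intro j hj hj'
    simp only [mem_filter, mem_range] at hj hj'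
    omega

lemma vis_eq_mid (hstep : ∀ j < m, p (j + 1) = p j + 1 ∨ p j = p (j + 1) + 1) (s : ℕ)
    (hs : 2 * (s + 1) = m) : vis m p (s + 1) = D m p s := by
  unfold vis D
  congr 1
  ext j
  simp only [mem_filter, mem_range]
  constructor
  · rintro ⟨hj, h⟩
    have := hstep j hj
    omega
  · rintro ⟨hj, h⟩
    omega

lemma alt_vis (hstep : ∀ j < m, p (j + 1) = p j + 1 ∨ p j = p (j + 1) + 1)
    (hpos : ∀ j ≤ m, 1 ≤ p j ∧ p j + 1 ≤ m) (hend : p m + p 0 = m) (s : ℕ) (hs : 2 * s < m) :
    alt (vis m p) s = U m p s := by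
  induction s with
  | zero =>
    simp only [alt]
    have : U m p 0 = 0 := by
      unfold U
      rw [card_eq_zero, filter_eq_empty_iff]
      intro j hj
      have := hpos j (by have := mem_range.1 hj; omega)
      omega
    simp [this]
  | succ s ih =>
    rw [alt, ih (by omega), vis_eq hstep s hs, U_eq_D hstep hend s (by omega)]
    push_cast; ring

theorem walk_nec (hm : 1 ≤ m)
    (hstep : ∀ j < m, p (j + 1) = p j + 1 ∨ p j = p (j + 1) + 1)
    (hpos : ∀ j ≤ m, 1 ≤ p j ∧ p j + 1 ≤ m) (hend : p m + p 0 = m) : IsVec m (vis m p) := by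
  obtain ⟨j0, hj0, hmin⟩ := Finset.exists_min_image (range m) (fun j => min (p j) (m - p j))
    ⟨0, mem_range.2 (by omega)⟩
  have hj0' := mem_range.1 hj0
  set a := min (p j0) (m - p j0) with ha
  have hp0 := hpos j0 (by omega)
  refine ⟨a, by omega, by omega, ?_, ?_, ?_, ?_⟩
  · intro s hs hsa
    unfold vis
    rw [card_eq_zero, filter_eq_empty_iff]
    intro j hj
    have h1 := hmin j hj
    have h2 := hpos j (by have := mem_range.1 hj; omega)
    omega
  · intro s has hs
    rw [alt_vis hstep hpos hend s hs]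
    by_contra hcon
    have hU0 : U m p s = 0 := by omega
    have hD0 : D m p s = 0 := by rw [← U_eq_D hstep hend s hs]; exact hU0
    unfold U at hU0
    unfold D at hD0
    rw [card_eq_zero, filter_eq_empty_iff] at hU0 hD0
    -- phi constant
    have hphi : ∀ j, j < m → ((p (j+1) ≤ s ∨ m ≤ p (j+1) + s) ↔ (p j ≤ s ∨ m ≤ p j + s)) := by
      intro j hj
      have h1 := hU0 (mem_range.2 hj)
      have h2 := hD0 (mem_range.2 hj)
      have h3 := hstep j hj
      omega
    have hphi' : ∀ j, j ≤ m → ((p j ≤ s ∨ m ≤ p j + s) ↔ (p 0 ≤ s ∨ m ≤ p 0 + s)) := by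
      intro j hj
      induction j with
      | zero => rfl
      | succ j ih => rw [hphi j (by omega)]; exact ih (by omega)
    have h0 : p 0 ≤ s ∨ m ≤ p 0 + s := by
      rw [← hphi' j0 (by omega)]
      omega
    -- side constant
    have hside : ∀ j, j ≤ m → (p j ≤ s ↔ p 0 ≤ s) := by
      intro j hj
      induction j with
      | zero => rfl
      | succ j ih =>
        rw [← ih (by omega)]
        have h1 := hU0 (mem_range.2 (show j < m by omega))
        have h2 := hD0 (mem_range.2 (show j < m by omega))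
        have h3 := hstep j (by omega)
        omega
    have h4 := hside m le_rfl
    have h5 := (hphi' m le_rfl).2 h0
    omega
  · intro s hs
    cases s with
    | zero => simp [alt]
    | succ s =>
      rw [alt, alt_vis hstep hpos hend s (by omega), vis_eq_mid hstep s hs,
        U_eq_D hstep hend s (by omega)]
      ring
  · have : ∑ s ∈ Icc 1 (m / 2), vis m p s = #(range m) := by
      unfold vis
      rw [Finset.card_eq_sum_card_fiberwise (f := fun j => min (p j) (m - p j)) (t := Icc 1 (m/2))]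
      · apply sum_congr rfl
        intro s hs
        have hs' := mem_Icc.1 hs
        congr 1
        apply Finset.filter_congr
        intro j hj
        have h2 := hpos j (by have := mem_range.1 hj; omega)
        omega
      · intro j hj
        have hj' : j < m := by simpa using hj
        have h2 := hpos j (by omega)
        simp only [coe_Icc, Set.mem_Icc]
        omega
    rw [this, card_range]

end nec

end Pool.Agent.H54.Radon
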